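import Pool.Agent.K7.H95.GMC.Defs

/-!
Archimedes' hat-box theorem (`S_ARCH`) for MP_55470d_pr.
-/

set_option autoImplicit false

namespace Pool.Agent.K7.H98.GMC.Arch

open MeasureTheory Measure Set Metric
open scoped RealInnerProductSpace ENNReal
open Pool.Agent.K7.H95.GMC

lemma sphere_hom_apply (x : ({0}ᶜ : Set R3)) :
    ((homeomorphUnitSphereProd R3 x).1 : R3) = ‖(x : R3)‖⁻¹ • (x : R3) := by
  simp [homeomorphUnitSphereProd]

lemma sphere_hom_apply2 (x : ({0}ᶜ : Set R3)) :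
    ((homeomorphUnitSphereProd R3 x).2 : ℝ) = ‖(x : R3)‖ := by
  simp [homeomorphUnitSphereProd]

/-- polar coordinates -/
lemma polar (φ : R3 → ℝ≥0∞) (hφ : Measurable φ) (ρ : ℝ → ℝ≥0∞) (hρ : Measurable ρ) :
    ∫⁻ x : R3, φ (‖x‖⁻¹ • x) * ρ ‖x‖ =
      (∫⁻ s, φ (s : R3) ∂((volume : Measure R3).toSphere)) *
        ∫⁻ r, ρ (r : ℝ) ∂(volumeIoiPow 2) := by
  have h1 : ∫⁻ x : R3, φ (‖x‖⁻¹ • x) * ρ ‖x‖ =
      ∫⁻ x in ({0}ᶜ : Set R3), φ (‖x‖⁻¹ • x) * ρ ‖x‖ := by
    rw [restrict_compl_singleton]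
  have h2 : ∫⁻ x in ({0}ᶜ : Set R3), φ (‖x‖⁻¹ • x) * ρ ‖x‖ =
      ∫⁻ x : ({0}ᶜ : Set R3), φ (‖(x : R3)‖⁻¹ • (x : R3)) * ρ ‖(x : R3)‖
        ∂((volume : Measure R3).comap Subtype.val) := by
    rw [← lintegral_subtype_comap (measurableSet_singleton _).compl]
  have h3 := (measurePreserving_homeomorphUnitSphereProd (volume : Measure R3))
  have hd : Module.finrank ℝ R3 - 1 = 2 := by simp
  rw [hd] at h3
  have h4 : ∫⁻ x : ({0}ᶜ : Set R3), φ (‖(x : R3)‖⁻¹ • (x : R3)) * ρ ‖(x : R3)‖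
        ∂((volume : Measure R3).comap Subtype.val) =
      ∫⁻ p, φ (p.1 : R3) * ρ (p.2 : ℝ) ∂((volume : Measure R3).toSphere.prod (volumeIoiPow 2)) := by
    rw [← h3.lintegral_comp (f := fun p : (sphere (0 : R3) 1) × Ioi (0 : ℝ) =>
      φ (p.1 : R3) * ρ (p.2 : ℝ))]
    · refine lintegral_congr fun x => ?_
      rw [sphere_hom_apply, sphere_hom_apply2]
    · exact (hφ.comp (measurable_subtype_coe.comp measurable_fst)).mul
        (hρ.comp (measurable_subtype_coe.comp measurable_snd))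
  rw [h1, h2, h4]
  exact lintegral_prod_mul (hφ.comp measurable_subtype_coe).aemeasurable
    (hρ.comp measurable_subtype_coe).aemeasurable

/-- the indicator of `r < 1` -/
noncomputable def rho (r : ℝ) : ℝ≥0∞ := (Iio (1 : ℝ)).indicator (fun _ => 1) r

lemma rho_meas : Measurable rho := measurable_const.indicator measurableSet_Iio

lemma rho_int : ∫⁻ r, rho (r : ℝ) ∂(volumeIoiPow 2) = ENNReal.ofReal (1 / 3) := by
  have h : ∀ r : Ioi (0 : ℝ), rho (r : ℝ) =
      (Iio (⟨1, mem_Ioi.2 one_pos⟩ : Ioi (0 : ℝ))).indicator (fun _ => (1 : ℝ≥0∞)) r := by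
    intro r
    simp only [rho, indicator, mem_Iio]
    rfl
  simp_rw [h]
  rw [lintegral_indicator measurableSet_Iio, lintegral_const, one_mul, restrict_apply_univ,
    volumeIoiPow_apply_Iio]
  norm_num

/-- the substitution `r = √(z² + ρ²)` -/
theorem subst (a : ℝ) (F : ℝ → ℝ≥0∞) :
    ∫⁻ ρ in Ioi (0 : ℝ), ENNReal.ofReal ρ * F (√(a ^ 2 + ρ ^ 2)) =
      ∫⁻ r in Ioi |a|, ENNReal.ofReal r * F r := by
  have hpos : ∀ ρ ∈ Ioi (0 : ℝ), 0 < √(a ^ 2 + ρ ^ 2) := by
    intro ρ hρ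
    have : (0 : ℝ) < ρ := hρ
    positivity
  have hder : ∀ ρ ∈ Ioi (0 : ℝ), HasDerivWithinAt (fun ρ : ℝ => √(a ^ 2 + ρ ^ 2))
      (ρ / √(a ^ 2 + ρ ^ 2)) (Ioi 0) ρ := by
    intro ρ hρ
    have h0 : (0 : ℝ) < ρ := hρ
    have h1 : HasDerivAt (fun ρ : ℝ => a ^ 2 + ρ ^ 2) (2 * ρ) ρ := by
      simpa using ((hasDerivAt_pow 2 ρ).const_add (a ^ 2))
    have h2 := h1.sqrt (by positivity)
    have h3 : 2 * ρ / (2 * √(a ^ 2 + ρ ^ 2)) = ρ / √(a ^ 2 + ρ ^ 2) := by
      have := hpos ρ hρ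
      field_simp
    rw [h3] at h2
    exact h2.hasDerivWithinAt
  have hinj : InjOn (fun ρ : ℝ => √(a ^ 2 + ρ ^ 2)) (Ioi 0) := by
    intro x hx y hy hxy
    have hx0 : (0 : ℝ) < x := hx
    have hy0 : (0 : ℝ) < y := hy
    have h1 : a ^ 2 + x ^ 2 = a ^ 2 + y ^ 2 := by
      have := congrArg (fun t : ℝ => t ^ 2) hxy
      simp only at this
      rwa [Real.sq_sqrt (by positivity), Real.sq_sqrt (by positivity)] at this
    nlinarith
  have himg : (fun ρ : ℝ => √(a ^ 2 + ρ ^ 2)) '' (Ioi 0) = Ioi |a| := by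
    ext r
    constructor
    · rintro ⟨ρ, hρ, rfl⟩
      have h0 : (0 : ℝ) < ρ := hρ
      have : |a| < √(a ^ 2 + ρ ^ 2) := by
        apply Real.lt_sqrt_of_sq_lt
        rw [sq_abs]
        nlinarith
      exact this
    · intro hr
      have hr' : |a| < r := hr
      have hr0 : 0 < r := (abs_nonneg a).trans_lt hr'
      have h2 : 0 < r ^ 2 - a ^ 2 := by
        have := sq_lt_sq' (by linarith [abs_nonneg a]) hr'
        rw [sq_abs] at this
        linarith
      refine ⟨√(r ^ 2 - a ^ 2), Real.sqrt_pos.2 h2, ?_⟩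
      simp only
      rw [Real.sq_sqrt h2.le, add_sub_cancel, Real.sqrt_sq hr0.le]
  rw [← himg, lintegral_image_eq_lintegral_abs_deriv_mul measurableSet_Ioi hder hinj]
  refine setLIntegral_congr_fun measurableSet_Ioi fun ρ hρ => ?_
  have h0 : (0 : ℝ) < ρ := hρ
  have h1 := hpos ρ hρ
  rw [← mul_assoc, ← ENNReal.ofReal_mul (abs_nonneg _), abs_of_pos (by positivity),
    div_mul_cancel₀ _ h1.ne']

/-- integrals of radial functions in the plane -/
theorem plane (F : ℝ → ℝ≥0∞) (hF : Measurable F) :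
    ∫⁻ u : ℝ × ℝ, F (u.1 ^ 2 + u.2 ^ 2) =
      ENNReal.ofReal (2 * Real.pi) * ∫⁻ ρ in Ioi (0 : ℝ), ENNReal.ofReal ρ * F (ρ ^ 2) := by
  rw [← lintegral_comp_polarCoord_symm]
  have h1 : ∀ p : ℝ × ℝ, ENNReal.ofReal p.1 • F ((polarCoord.symm p).1 ^ 2 +
      (polarCoord.symm p).2 ^ 2) = ENNReal.ofReal p.1 * F (p.1 ^ 2) := by
    intro p
    rw [polarCoord_symm_apply, smul_eq_mul]
    congr 2
    have := Real.cos_sq_add_sin_sq p.2
    linear_combination p.1 ^ 2 * this
  simp_rw [h1]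
  rw [polarCoord_target, Measure.volume_eq_prod, ← Measure.prod_restrict,
    lintegral_prod _ (by fun_prop)]
  simp only [lintegral_const, restrict_apply_univ, Real.volume_Ioo]
  rw [lintegral_mul_const _ (by fun_prop), mul_comm]
  congr 2
  ring

/-- the main computation in coordinates -/
theorem coord (g : ℝ → ℝ≥0∞) (hg : Measurable g) :
    ∫⁻ z : ℝ, ∫⁻ u : ℝ × ℝ, g (z / √(z ^ 2 + (u.1 ^ 2 + u.2 ^ 2))) *
      rho (√(z ^ 2 + (u.1 ^ 2 + u.2 ^ 2))) =
      ENNReal.ofReal (2 * Real.pi / 3) * ∫⁻ t in Ioo (-1 : ℝ) 1, g t := by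
  have h1 : ∀ z : ℝ, ∫⁻ u : ℝ × ℝ, g (z / √(z ^ 2 + (u.1 ^ 2 + u.2 ^ 2))) *
      rho (√(z ^ 2 + (u.1 ^ 2 + u.2 ^ 2))) = ENNReal.ofReal (2 * Real.pi) *
      ∫⁻ r in Ioi |z|, ENNReal.ofReal r * (g (z / r) * rho r) := by
    intro z
    have := plane (fun s => g (z / √(z ^ 2 + s)) * rho (√(z ^ 2 + s)))
      (by
        have := rho_meas
        fun_prop)
    rw [this]
    congr 1
    exact subst z (fun r => g (z / r) * rho r)
  simp_rw [h1]
  have hrho := rho_meas
  rw [lintegral_const_mul' _ _ ENNReal.ofReal_ne_top]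
  have h2 : ∀ z : ℝ, ∫⁻ r in Ioi |z|, ENNReal.ofReal r * (g (z / r) * rho r) =
      ∫⁻ r, (Ioi |z|).indicator (fun r => ENNReal.ofReal r * (g (z / r) * rho r)) r := by
    intro z
    rw [lintegral_indicator measurableSet_Ioi]
  simp_rw [h2]
  have hmeas : Measurable (fun p : ℝ × ℝ => (Ioi |p.1|).indicator
      (fun r => ENNReal.ofReal r * (g (p.1 / r) * rho r)) p.2) := by
    have : (fun p : ℝ × ℝ => (Ioi |p.1|).indicator
      (fun r => ENNReal.ofReal r * (g (p.1 / r) * rho r)) p.2) =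
      {p : ℝ × ℝ | |p.1| < p.2}.indicator
        (fun p => ENNReal.ofReal p.2 * (g (p.1 / p.2) * rho p.2)) := by
      ext p
      simp only [indicator, mem_Ioi]
      rfl
    rw [this]
    apply Measurable.indicator (by fun_prop)
    exact measurableSet_lt (by fun_prop) (by fun_prop)
  rw [lintegral_lintegral_swap hmeas.aemeasurable]
  have h3 : ∀ r : ℝ, ∫⁻ z : ℝ, (Ioi |z|).indicator
      (fun r => ENNReal.ofReal r * (g (z / r) * rho r)) r =
      (Ioo (0 : ℝ) 1).indicator (fun r => ENNReal.ofReal (r ^ 2)) r *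
        ∫⁻ t in Ioo (-1 : ℝ) 1, g t := by
    intro r
    by_cases hr : r ∈ Ioo (0 : ℝ) 1
    · rw [indicator_of_mem hr]
      have e1 : ∀ z : ℝ, (Ioi |z|).indicator
          (fun r => ENNReal.ofReal r * (g (z / r) * rho r)) r =
          ENNReal.ofReal r * (Ioo (-1 : ℝ) 1).indicator g (z / r) := by
        intro z
        have hh : r ∈ Ioi |z| ↔ z / r ∈ Ioo (-1 : ℝ) 1 := by
          rw [mem_Ioi, abs_lt, mem_Ioo, lt_div_iff₀ hr.1, div_lt_iff₀ hr.1]
          simp
        by_cases hz : r ∈ Ioi |z|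
        · rw [indicator_of_mem hz, indicator_of_mem (hh.1 hz)]
          unfold rho
          rw [indicator_of_mem (mem_Iio.2 hr.2), mul_one]
        · rw [indicator_of_notMem hz, indicator_of_notMem (fun h => hz (hh.2 h)), mul_zero]
      simp_rw [e1]
      rw [lintegral_const_mul' _ _ ENNReal.ofReal_ne_top]
      have e2 : ∫⁻ z : ℝ, (Ioo (-1 : ℝ) 1).indicator g (z / r) =
          ENNReal.ofReal r * ∫⁻ z : ℝ, (Ioo (-1 : ℝ) 1).indicator g z := by
        have h4 := Measure.map_addHaar_smul (volume : Measure ℝ) (r := r⁻¹) (inv_ne_zero hr.1.ne')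
        rw [Module.finrank_self, pow_one, inv_inv, abs_of_pos hr.1] at h4
        have h5 : ∫⁻ z : ℝ, (Ioo (-1 : ℝ) 1).indicator g (r⁻¹ • z) =
            ∫⁻ z, (Ioo (-1 : ℝ) 1).indicator g z ∂(map (fun z : ℝ => r⁻¹ • z) volume) := by
          rw [lintegral_map (hg.indicator measurableSet_Ioo) (by fun_prop)]
        simp_rw [div_eq_inv_mul]
        simp only [smul_eq_mul] at h5 h4
        rw [h5, h4, lintegral_smul_measure, smul_eq_mul]
      rw [e2, lintegral_indicator measurableSet_Ioo, ← mul_assoc, ← ENNReal.ofReal_mul hr.1.le, sq]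
    · rw [indicator_of_notMem hr, zero_mul]
      have : ∀ z : ℝ, (Ioi |z|).indicator
          (fun r => ENNReal.ofReal r * (g (z / r) * rho r)) r = 0 := by
        intro z
        by_cases hz : r ∈ Ioi |z|
        · rw [indicator_of_mem hz]
          have h0 : 0 < r := (abs_nonneg z).trans_lt hz
          have h1 : ¬ r < 1 := fun h => hr ⟨h0, h⟩
          unfold rho
          rw [indicator_of_notMem (by simpa using h1), mul_zero, mul_zero]
        · rw [indicator_of_notMem hz]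
      simp_rw [this]
      simp
  simp_rw [h3]
  rw [lintegral_mul_const _ (by
    apply Measurable.indicator (by fun_prop) measurableSet_Ioo), ← mul_assoc]
  congr 1
  rw [lintegral_indicator measurableSet_Ioo]
  have : ∫⁻ r in Ioo (0 : ℝ) 1, ENNReal.ofReal (r ^ 2) = ENNReal.ofReal (1 / 3) := by
    rw [← ofReal_integral_eq_lintegral_ofReal]
    · rw [← integral_Ioc_eq_integral_Ioo, ← intervalIntegral.integral_of_le zero_le_one]
      congr 1
      simp
      norm_num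
    · exact (Continuous.integrableOn_Icc (by fun_prop)).mono_set Ioo_subset_Icc_self
    · exact Filter.Eventually.of_forall fun r => by positivity
  rw [this, ← ENNReal.ofReal_mul (by positivity)]
  congr 1
  ring

/-- the law of the height, in coordinates -/
theorem height0 (g : ℝ → ℝ≥0∞) (hg : Measurable g) :
    ∫⁻ w : R3, g (w 0 / ‖w‖) * rho ‖w‖ =
      ENNReal.ofReal (2 * Real.pi / 3) * ∫⁻ t in Ioo (-1 : ℝ) 1, g t := by
  have hrho := rho_meas
  have hm : Measurable (fun w : R3 => g (w 0 / ‖w‖) * rho ‖w‖) := by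
    have : Measurable (fun w : R3 => w 0) := by fun_prop
    fun_prop
  have e1 : ∫⁻ w : R3, g (w 0 / ‖w‖) * rho ‖w‖ = ∫⁻ v : Fin 3 → ℝ,
      (fun w : R3 => g (w 0 / ‖w‖) * rho ‖w‖) (WithLp.toLp 2 v) :=
    ((PiLp.volume_preserving_toLp (Fin 3)).lintegral_comp hm).symm
  have e2 : ∫⁻ v : Fin 3 → ℝ, (fun w : R3 => g (w 0 / ‖w‖) * rho ‖w‖) (WithLp.toLp 2 v) =
      ∫⁻ p : ℝ × (Fin 2 → ℝ), (fun w : R3 => g (w 0 / ‖w‖) * rho ‖w‖)
        (WithLp.toLp 2 ((MeasurableEquiv.piFinSuccAbove (fun _ : Fin 3 => ℝ) 0).symm p)) :=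
    (((volume_preserving_piFinSuccAbove (fun _ : Fin 3 => ℝ) 0).symm _).lintegral_comp_emb
      (MeasurableEquiv.measurableEmbedding _) _).symm
  have hm3 : Measurable (fun p : ℝ × (Fin 2 → ℝ) => (fun w : R3 => g (w 0 / ‖w‖) * rho ‖w‖)
        (WithLp.toLp 2 ((MeasurableEquiv.piFinSuccAbove (fun _ : Fin 3 => ℝ) 0).symm p))) :=
    hm.comp ((by fun_prop : Measurable (fun v : Fin 3 → ℝ => (WithLp.toLp 2 v : R3))).comp
      (MeasurableEquiv.measurable _))
  rw [e1, e2, Measure.volume_eq_prod, lintegral_prod _ hm3.aemeasurable, ← coord g hg]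
  refine lintegral_congr fun z => ?_
  have e3 := ((volume_preserving_finTwoArrow ℝ).symm _).lintegral_comp_emb
      (MeasurableEquiv.measurableEmbedding _) (fun q : Fin 2 → ℝ =>
      (fun w : R3 => g (w 0 / ‖w‖) * rho ‖w‖)
        (WithLp.toLp 2 ((MeasurableEquiv.piFinSuccAbove (fun _ : Fin 3 => ℝ) 0).symm (z, q))))
  rw [← e3]
  refine lintegral_congr fun u => ?_
  have h0 : ((WithLp.toLp 2 ((MeasurableEquiv.piFinSuccAbove (fun _ : Fin 3 => ℝ) 0).symm
      (z, MeasurableEquiv.finTwoArrow.symm u)) : R3) 0) = z := by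
    simp
  have h1 : ‖(WithLp.toLp 2 ((MeasurableEquiv.piFinSuccAbove (fun _ : Fin 3 => ℝ) 0).symm
      (z, MeasurableEquiv.finTwoArrow.symm u)) : R3)‖ = √(z ^ 2 + (u.1 ^ 2 + u.2 ^ 2)) := by
    rw [EuclideanSpace.norm_eq]
    congr 1
    simp [Fin.sum_univ_succ, MeasurableEquiv.finTwoArrow]
  have h2 : ((MeasurableEquiv.piFinSuccAbove (fun _ : Fin 3 => ℝ) 0).symm
      (z, MeasurableEquiv.finTwoArrow.symm u)) 0 = z := h0
  simp only
  rw [h2, h1]

/-- the law of the height in an arbitrary direction -/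
theorem height (y : R3) (hy : ‖y‖ = 1) (g : ℝ → ℝ≥0∞) (hg : Measurable g) :
    ∫⁻ w : R3, g (inner ℝ y w / ‖w‖) * rho ‖w‖ =
      ENNReal.ofReal (2 * Real.pi / 3) * ∫⁻ t in Ioo (-1 : ℝ) 1, g t := by
  have ho : Orthonormal ℝ (({0} : Set (Fin 3)).domRestrict (fun _ => y)) := by
    constructor
    · intro i
      exact hy
    · intro i j hij
      exact absurd (Subtype.ext ((i.2 : (i : Fin 3) = 0).trans (j.2 : (j : Fin 3) = 0).symm)) hij
  obtain ⟨b, hb⟩ := Orthonormal.exists_orthonormalBasis_extension_of_card_eq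
    (by simp) ho
  have hb0 : b 0 = y := hb 0 rfl
  have h := b.measurePreserving_repr.lintegral_comp_emb
    b.repr.toHomeomorph.measurableEmbedding (fun w : R3 => g (w 0 / ‖w‖) * rho ‖w‖)
  rw [← height0 g hg, ← h]
  refine lintegral_congr fun x => ?_
  simp only
  rw [LinearIsometryEquiv.norm_map, OrthonormalBasis.repr_apply_apply, hb0]

/-- **Archimedes' hat-box theorem** for the surface measure -/
theorem sphere_height (y : S2) (g : ℝ → ℝ≥0∞) (hg : Measurable g) :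
    ∫⁻ x : S2, g (inner ℝ (y : R3) (x : R3)) ∂((volume : Measure R3).toSphere) =
      ENNReal.ofReal (2 * Real.pi) * ∫⁻ t in Ioo (-1 : ℝ) 1, g t := by
  have hy : ‖(y : R3)‖ = 1 := by
    have := y.2
    rwa [mem_sphere_zero_iff_norm] at this
  have h1 := polar (fun x => g (inner ℝ (y : R3) x)) (by fun_prop) rho rho_meas
  have h2 := height (y : R3) hy g hg
  have h3 : ∀ x : R3, g (inner ℝ (y : R3) (‖x‖⁻¹ • x)) = g (inner ℝ (y : R3) x / ‖x‖) := by
    intro x
    rw [real_inner_smul_right, div_eq_inv_mul]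
  simp only [h3] at h1
  rw [h2, rho_int] at h1
  have h4 : ENNReal.ofReal (2 * Real.pi / 3) = ENNReal.ofReal (2 * Real.pi) *
      ENNReal.ofReal (1 / 3) := by
    rw [← ENNReal.ofReal_mul (by positivity)]
    congr 1
    ring
  rw [h4, mul_right_comm] at h1
  exact ((ENNReal.mul_left_inj (by simp) ENNReal.ofReal_ne_top).1 h1).symm

theorem toSphere_univ : (volume : Measure R3).toSphere univ = ENNReal.ofReal (4 * Real.pi) := by
  have h := sphere_height ⟨EuclideanSpace.single 0 1, by simp⟩ (fun _ => 1) measurable_const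
  rw [lintegral_const, lintegral_const, one_mul, one_mul, restrict_apply_univ, Real.volume_Ioo,
    ← ENNReal.ofReal_mul (by positivity)] at h
  rw [h]
  congr 1
  ring

/-- the affine substitution -/
theorem half (f : ℝ → ℝ≥0∞) (hf : Measurable f) :
    ∫⁻ t in Ioo (-1 : ℝ) 1, f ((1 + t) / 2) = 2 * ∫⁻ t in Icc (0 : ℝ) 1, f t := by
  have himg : (fun t : ℝ => (1 + t) / 2) '' (Ioo (-1 : ℝ) 1) = Ioo 0 1 := by
    ext s
    constructor
    · rintro ⟨t, ht, rfl⟩
      constructor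
      · have := ht.1
        simp only
        linarith
      · have := ht.2
        simp only
        linarith
    · intro hs
      refine ⟨2 * s - 1, ⟨by linarith [hs.1], by linarith [hs.2]⟩, ?_⟩
      simp only
      ring
  have h := lintegral_image_eq_lintegral_abs_deriv_mul (s := Ioo (-1 : ℝ) 1)
    (f := fun t : ℝ => (1 + t) / 2) (f' := fun _ => 1 / 2) measurableSet_Ioo
    (fun x _ => by
      have := ((hasDerivAt_id x).const_add 1).div_const 2
      exact this.hasDerivWithinAt)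
    (fun x _ y _ hxy => by simp only at hxy; linarith) f
  rw [himg] at h
  rw [← restrict_Ioo_eq_restrict_Icc, h, lintegral_const_mul _ (by fun_prop), ← mul_assoc]
  have : (2 : ℝ≥0∞) * ENNReal.ofReal |(1 / 2 : ℝ)| = 1 := by
    rw [abs_of_pos (by norm_num), ← ENNReal.ofReal_ofNat, ← ENNReal.ofReal_mul (by norm_num)]
    norm_num
  rw [this, one_mul]

theorem s_ARCH : S_ARCH := by
  have hpi : ENNReal.ofReal (4 * Real.pi) ≠ 0 := by
    rw [ENNReal.ofReal_ne_zero_iff]
    positivity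
  refine ⟨⟨?_⟩, ?_⟩
  · unfold nu
    rw [Measure.smul_apply, smul_eq_mul, toSphere_univ, ENNReal.inv_mul_cancel hpi ENNReal.ofReal_ne_top]
  · intro y f hf
    unfold nu
    rw [lintegral_smul_measure, toSphere_univ]
    have h1 : ∀ x : S2, 1 - ‖(x : R3) - (y : R3)‖ ^ 2 / 4 = (1 + inner ℝ (y : R3) (x : R3)) / 2 := by
      intro x
      have hy : ‖(y : R3)‖ = 1 := by
        have := y.2
        rwa [mem_sphere_zero_iff_norm] at this
      have hx : ‖(x : R3)‖ = 1 := by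
        have := x.2
        rwa [mem_sphere_zero_iff_norm] at this
      rw [@norm_sub_sq_real, hx, hy, real_inner_comm]
      ring
    simp_rw [h1]
    rw [sphere_height y (fun t => f ((1 + t) / 2)) (by fun_prop), half f hf, smul_eq_mul,
      ← mul_assoc, ← mul_assoc]
    have h2 : (ENNReal.ofReal (4 * Real.pi))⁻¹ * ENNReal.ofReal (2 * Real.pi) * 2 = 1 := by
      rw [mul_assoc, ← ENNReal.ofReal_ofNat, ← ENNReal.ofReal_mul (by positivity)]
      have : 2 * Real.pi * ((OfNat.ofNat 2 : ℕ) : ℝ) = 4 * Real.pi := by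
        push_cast
        ring
      rw [show (2 * Real.pi * OfNat.ofNat 2 : ℝ) = 4 * Real.pi by ring]
      exact ENNReal.inv_mul_cancel hpi ENNReal.ofReal_ne_top
    rw [h2, one_mul]

end Pool.Agent.K7.H98.GMC.Arch
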