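import Pool.Agent.K7.H95.GMC.Defs2

/-!
Gram-Schmidt (`S_GS`) for MP_55470d_pr.
-/

set_option autoImplicit false

open MeasureTheory Complex Filter Topology
open scoped ENNReal NNReal ComplexConjugate

namespace Pool.Agent.K7.H98.GMC.GSch

open Pool.Agent.R923.SE Pool.Agent.R923.SE.NX
open Pool.Agent.K7.H95.GMC

noncomputable section

variable {n : ℕ} (c : ℕ → V n)

/-- the projections -/
def Qs : ℕ → Matrix (Fin n) (Fin n) ℂ
  | 0 => 1
  | m + 1 => upd (Qs m) (c m)

/-- the orthogonalised rows -/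
def vs (m : ℕ) : V n := (Qs c m).mulVec (c m)

/-- the squared lengths -/
def rs (m : ℕ) : ℝ := RR (Qs c m) (c m)

theorem star_vs (m : ℕ) : star (vs c m) ⬝ᵥ vs c m = ((rs c m : ℝ) : ℂ) := star_dot_self _

theorem rs_nonneg (m : ℕ) : 0 ≤ rs c m := RR_nonneg _ _

theorem Qs_succ (m : ℕ) : Qs c (m + 1) =
    Qs c m - (((rs c m)⁻¹ : ℝ) : ℂ) • Matrix.vecMulVec (vs c m) (star (vs c m)) := rfl

theorem vs_eq_zero {m : ℕ} (h : rs c m = 0) : vs c m = 0 := by
  have h1 : ∑ i, ‖vs c m i‖ ^ 2 = 0 := h
  rw [Finset.sum_eq_zero_iff_of_nonneg (fun i _ => by positivity)] at h1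
  funext i
  have := h1 i (Finset.mem_univ i)
  simpa using this

theorem Qs_proj (m : ℕ) : (Qs c m).IsHermitian ∧ Qs c m * Qs c m = Qs c m := by
  induction m with
  | zero => exact ⟨Matrix.isHermitian_one, by simp [Qs]⟩
  | succ m ih =>
    obtain ⟨hH, hI⟩ := ih
    by_cases hr : rs c m = 0
    · rw [Qs_succ, vs_eq_zero c hr]
      simpa using ⟨hH, hI⟩
    · have hvv := star_vs c m
      have hQv : (Qs c m).mulVec (vs c m) = vs c m := by
        unfold vs
        rw [Matrix.mulVec_mulVec, hI]
      have hc' : ((rs c m : ℝ) : ℂ) ≠ 0 := by exact_mod_cast hr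
      set v := vs c m with hv
      have hherm : (Matrix.vecMulVec v (star v)).conjTranspose = Matrix.vecMulVec v (star v) := by
        rw [Matrix.conjTranspose_vecMulVec, star_star]
      have h1 : Qs c m * Matrix.vecMulVec v (star v) = Matrix.vecMulVec v (star v) := by
        rw [Matrix.mul_vecMulVec, hQv]
      have h2 : Matrix.vecMulVec v (star v) * Qs c m = Matrix.vecMulVec v (star v) := by
        have h3 := congrArg Matrix.conjTranspose h1
        rw [Matrix.conjTranspose_mul, hherm, hH.eq] at h3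
        exact h3
      have h3 : Matrix.vecMulVec v (star v) * Matrix.vecMulVec v (star v) =
          ((rs c m : ℝ) : ℂ) • Matrix.vecMulVec v (star v) := by
        rw [Matrix.vecMulVec_mul_vecMulVec, hvv, Matrix.vecMulVec_smul]
      constructor
      · rw [Qs_succ]
        unfold Matrix.IsHermitian
        rw [Matrix.conjTranspose_sub, Matrix.conjTranspose_smul, hH.eq, ← hv, hherm]
        congr 2
        simp
      · rw [Qs_succ, ← hv, sub_mul, mul_sub, mul_sub, hI, Matrix.mul_smul, Matrix.smul_mul,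
          Matrix.smul_mul, Matrix.mul_smul, h1, h2, h3, smul_smul, smul_smul]
        have h4 : ((((rs c m)⁻¹ : ℝ) : ℂ)) * (((rs c m)⁻¹ : ℝ) : ℂ) * ((rs c m : ℝ) : ℂ) =
            (((rs c m)⁻¹ : ℝ) : ℂ) := by
          push_cast
          field_simp
        rw [h4]
        abel

theorem vecMulVec_mulVec' (u v w : V n) :
    (Matrix.vecMulVec u (star v)).mulVec w = (star v ⬝ᵥ w) • u := by
  funext i
  simp only [Matrix.mulVec, dotProduct, Matrix.vecMulVec_apply, Pi.smul_apply, smul_eq_mul]
  rw [Finset.sum_mul]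
  apply Finset.sum_congr rfl
  intro j _
  ring

/-- `star (Q u) ⬝ w = star u ⬝ (Q w)` for Hermitian `Q` -/
theorem herm_dot {Q : Matrix (Fin n) (Fin n) ℂ} (hQ : Q.IsHermitian) (u w : V n) :
    star (Q.mulVec u) ⬝ᵥ w = star u ⬝ᵥ Q.mulVec w := by
  rw [Matrix.star_mulVec, hQ.eq, Matrix.dotProduct_mulVec]

theorem Qs_kill (m : ℕ) : ∀ l < m, (Qs c m).mulVec (vs c l) = 0 := by
  induction m with
  | zero => intro l hl; omega
  | succ m ih =>
    intro l hl
    rw [Qs_succ, Matrix.sub_mulVec, Matrix.smul_mulVec, vecMulVec_mulVec']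
    rcases Nat.lt_succ_iff_lt_or_eq.1 hl with h | h
    · have h1 := ih l h
      have h2 : star (vs c m) ⬝ᵥ vs c l = 0 := by
        unfold vs
        rw [herm_dot (Qs_proj c m).1]
        have h3 : (Qs c m).mulVec ((Qs c l).mulVec (c l)) = 0 := h1
        rw [h3, dotProduct_zero]
      rw [h1, h2]
      simp
    · subst h
      have hQv : (Qs c l).mulVec (vs c l) = vs c l := by
        unfold vs
        rw [Matrix.mulVec_mulVec, (Qs_proj c l).2]
      rw [hQv, star_vs]
      by_cases hr : rs c l = 0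
      · rw [vs_eq_zero c hr]
        simp
      · rw [smul_smul, ← Complex.ofReal_mul, inv_mul_cancel₀ hr]
        simp

theorem orth {l m : ℕ} (h : l < m) : star (vs c m) ⬝ᵥ vs c l = 0 := by
  have h1 := Qs_kill c m l h
  conv_lhs => unfold vs
  rw [herm_dot (Qs_proj c m).1]
  have h3 : (Qs c m).mulVec ((Qs c l).mulVec (c l)) = 0 := h1
  rw [h3, dotProduct_zero]

theorem orth' {l m : ℕ} (h : l ≠ m) : star (vs c m) ⬝ᵥ vs c l = 0 := by
  rcases lt_or_gt_of_ne h with h | h
  · exact orth c h
  · have h1 := orth c h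
    have h2 := congrArg star h1
    rw [star_zero, ← Matrix.star_dotProduct_star, star_star] at h2
    exact h2

theorem Qs_eq (m : ℕ) : Qs c m = 1 - ∑ l ∈ Finset.range m,
    (((rs c l)⁻¹ : ℝ) : ℂ) • Matrix.vecMulVec (vs c l) (star (vs c l)) := by
  induction m with
  | zero => simp [Qs]
  | succ m ih =>
    rw [Qs_succ, ih, Finset.sum_range_succ]
    abel

theorem c_eq (m : ℕ) : c m = vs c m + ∑ l ∈ Finset.range m,
    ((((rs c l)⁻¹ : ℝ) : ℂ) * (star (vs c l) ⬝ᵥ c m)) • vs c l := by
  have h : vs c m = c m - ∑ l ∈ Finset.range m,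
      ((((rs c l)⁻¹ : ℝ) : ℂ) * (star (vs c l) ⬝ᵥ c m)) • vs c l := by
    conv_lhs => unfold vs
    rw [Qs_eq, Matrix.sub_mulVec, Matrix.one_mulVec, Matrix.sum_mulVec]
    congr 1
    apply Finset.sum_congr rfl
    intro l _
    rw [Matrix.smul_mulVec, vecMulVec_mulVec', smul_smul]
  rw [h]
  abel

/-- **Gram-Schmidt** -/
theorem gram (c : ℕ → V n) : ((‖Matrix.det (Matrix.of fun (i j : Fin n) => c i j)‖ ^ 2 : ℝ)) =
    ∏ i : Fin n, rs c i := by
  set C : Matrix (Fin n) (Fin n) ℂ := Matrix.of fun (i j : Fin n) => c i j with hC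
  set W : Matrix (Fin n) (Fin n) ℂ := Matrix.of fun (i j : Fin n) => vs c i j with hW
  set L : Matrix (Fin n) (Fin n) ℂ := Matrix.of fun (i l : Fin n) =>
    if l = i then 1 else if l < i then ((((rs c l)⁻¹ : ℝ) : ℂ) * (star (vs c l) ⬝ᵥ c i)) else 0
    with hL
  have h1 : C = L * W := by
    ext i j
    rw [Matrix.mul_apply]
    have h2 := congrFun (c_eq c i) j
    rw [Pi.add_apply, Finset.sum_apply] at h2
    have h3 : ∑ l ∈ Finset.range (i : ℕ),
        (((((rs c l)⁻¹ : ℝ) : ℂ) * (star (vs c l) ⬝ᵥ c i)) • vs c l) j =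
        ∑ l : Fin n, if l < i then ((((rs c l)⁻¹ : ℝ) : ℂ) * (star (vs c l) ⬝ᵥ c i)) * vs c l j
          else 0 := by
      rw [Finset.sum_fin_eq_sum_range, ← Finset.sum_filter_add_sum_filter_not (Finset.range n)
        (fun l => l < (i : ℕ))]
      have h4 : (Finset.range n).filter (fun l => l < (i : ℕ)) = Finset.range (i : ℕ) := by
        ext l
        simp only [Finset.mem_filter, Finset.mem_range]
        have := i.2
        omega
      rw [h4]
      have h5 : ∑ l ∈ (Finset.range n).filter (fun l => ¬ l < (i : ℕ)),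
          (if h : l < n then (if (⟨l, h⟩ : Fin n) < i then
            ((((rs c ((⟨l, h⟩ : Fin n) : ℕ))⁻¹ : ℝ) : ℂ) *
              (star (vs c ((⟨l, h⟩ : Fin n) : ℕ)) ⬝ᵥ c i)) * vs c ((⟨l, h⟩ : Fin n) : ℕ) j
          else 0) else 0) = 0 := by
        apply Finset.sum_eq_zero
        intro l hl
        rw [Finset.mem_filter, Finset.mem_range] at hl
        rw [dif_pos hl.1, if_neg]
        intro h
        exact hl.2 h
      rw [h5, add_zero]
      apply Finset.sum_congr rfl
      intro l hl
      rw [Finset.mem_range] at hl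
      have hln : l < n := hl.trans i.2
      rw [dif_pos hln, if_pos (by exact hl)]
      rfl
    rw [h3] at h2
    have h6 : C i j = c i j := rfl
    rw [h6, h2]
    have h7 : vs c i j = ∑ l : Fin n, if l = i then vs c l j else 0 := by
      rw [Finset.sum_ite_eq']
      simp
    rw [h7, ← Finset.sum_add_distrib]
    apply Finset.sum_congr rfl
    intro l _
    simp only [hL, hW, Matrix.of_apply]
    by_cases e1 : l = i
    · rw [if_pos e1, if_pos e1, one_mul, if_neg (by rw [e1]; exact lt_irrefl _), add_zero]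
    · rw [if_neg e1, if_neg e1]
      by_cases e2 : l < i
      · rw [if_pos e2, if_pos e2, zero_add]
      · rw [if_neg e2, if_neg e2, zero_mul, add_zero]
  have hdL : L.det = 1 := by
    rw [Matrix.det_of_isLowerTriangular L ?_]
    · apply Finset.prod_eq_one
      intro i _
      simp [hL]
    · intro i j hij
      simp only [hL, Matrix.of_apply]
      have hij' : i < j := hij
      rw [if_neg (by intro h; rw [h] at hij'; exact lt_irrefl _ hij'), if_neg (not_lt.2 hij'.le)]
  have hdC : C.det = W.det := by rw [h1, Matrix.det_mul, hdL, one_mul]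
  have hWW : W * W.conjTranspose = Matrix.diagonal (fun i : Fin n => ((rs c i : ℝ) : ℂ)) := by
    ext i j
    rw [Matrix.mul_apply, Matrix.diagonal_apply]
    have h2 : ∑ k, W i k * W.conjTranspose k j = star (vs c j) ⬝ᵥ vs c i := by
      unfold dotProduct
      apply Finset.sum_congr rfl
      intro k _
      simp only [hW, Matrix.conjTranspose_apply, Matrix.of_apply, Pi.star_apply]
      ring
    rw [h2]
    by_cases h : i = j
    · rw [if_pos h, h, star_vs]
    · rw [if_neg h]
      exact orth' c (fun h' => h (Fin.ext h'))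
  have h3 := congrArg Matrix.det hWW
  rw [Matrix.det_mul, Matrix.det_conjTranspose, Matrix.det_diagonal] at h3
  rw [hdC]
  have h4 : W.det * star W.det = ((‖W.det‖ ^ 2 : ℝ) : ℂ) := by
    rw [RCLike.star_def, Complex.mul_conj']
    push_cast
    rfl
  rw [h4] at h3
  exact_mod_cast h3

/-- comparison with `QQ` and `DM` -/
theorem QQ_eq (a b : ℂ) (c : ℕ → V n) (m : ℕ) (w : Fin m → E n)
    (h : ∀ i : Fin m, cx a b (w i) = c i) : QQ a b m w = Qs c m := by
  induction m with
  | zero => rfl
  | succ m ih =>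
    rw [QQ, ih (Fin.init (α := fun _ => E n) w) (fun i => by
      have := h i.castSucc
      simpa [Fin.init] using this)]
    have h2 := h (Fin.last m)
    rw [h2]
    simp [Qs]

theorem DM_eq (a b : ℂ) (c : ℕ → V n) (m : ℕ) (w : Fin m → E n)
    (h : ∀ i : Fin m, cx a b (w i) = c i) : DM a b m w = ∏ i ∈ Finset.range m, rs c i := by
  induction m with
  | zero => simp [DM]
  | succ m ih =>
    have hi : ∀ i : Fin m, cx a b (Fin.init (α := fun _ => E n) w i) = c i := fun i => by
      have := h i.castSucc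
      simpa [Fin.init] using this
    rw [DM, ih (Fin.init (α := fun _ => E n) w) hi, QQ_eq a b c m _ hi, Finset.prod_range_succ]
    have h2 := h (Fin.last m)
    rw [h2]
    simp [rs]

theorem s_GS : S_GS := by
  intro n a b _
  refine Eventually.of_forall fun w => ?_
  set c : ℕ → V n := fun m => if h : m < n then cx a b (w ⟨m, h⟩) else 0 with hc
  have h1 : ∀ i : Fin n, cx a b (w i) = c i := by
    intro i
    simp [hc]
  rw [DM_eq a b c n w h1, ← Fin.prod_univ_eq_prod_range, ← gram c]
  unfold dt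
  congr 3
  ext i j
  simp only [Matrix.of_apply, ← h1 i, cx, Pi.add_apply, Pi.smul_apply, smul_eq_mul]

end

end Pool.Agent.K7.H98.GMC.GSch
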