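import Pool.Agent.K7.H98.GMC.Two

/-!
`S_L2` (MP_55470d_pr).
-/

set_option autoImplicit false

open MeasureTheory Complex Filter Topology
open scoped ENNReal NNReal ComplexConjugate

namespace Pool.Agent.K7.H98.GMC

open Pool.Agent.R923.SE Pool.Agent.R923.SE.NX
open Pool.Agent.K7.H95.GMC

noncomputable section

theorem pARCH : S_ARCH := Pool.Agent.K7.H98.GMC.Arch.s_ARCH

instance : IsProbabilityMeasure nu := pARCH.1

/-- squared correlation of two points -/
def sc (z : S2 × S2) : ℝ := 1 - ‖(z.1 : R3) - (z.2 : R3)‖ ^ 2 / 4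

theorem continuous_sc : Continuous sc := by unfold sc; fun_prop

theorem sc_eq (z : S2 × S2) : sc z = ‖sg (sa z.1) (sb z.1) (sa z.2) (sb z.2)‖ ^ 2 :=
  (sg_eq z.1 z.2).symm

theorem sc_nonneg (z : S2 × S2) : 0 ≤ sc z := by rw [sc_eq]; positivity

theorem sc_le (z : S2 × S2) : sc z ≤ 1 := by
  unfold sc
  have : 0 ≤ ‖(z.1 : R3) - (z.2 : R3)‖ ^ 2 / 4 := by positivity
  linarith

/-- the law of the squared correlation -/
theorem lint_sc {h : ℝ → ℝ≥0∞} (hh : Measurable h) :
    ∫⁻ z, h (sc z) ∂nu.prod nu = ∫⁻ t in Set.Icc (0 : ℝ) 1, h t := by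
  have hm : Measurable fun z : S2 × S2 => h (sc z) := hh.comp continuous_sc.measurable
  rw [lintegral_prod_symm _ hm.aemeasurable]
  have : ∀ y : S2, ∫⁻ x : S2, h (sc (x, y)) ∂nu = ∫⁻ t in Set.Icc (0 : ℝ) 1, h t := by
    intro y
    exact pARCH.2 y h hh
  simp_rw [this]
  simp

theorem measurable_FE (n : ℕ) (p : ℝ) : Measurable fun s : ℝ => FE n p s := by
  unfold FE
  have h1 : Measurable fun z : ℝ × (Mt n n × Mt n n) => fE p (CC n z.1 z.2) * fE p z.2.2 := by
    refine ((measurable_fE n p).comp ?_).mul ((measurable_fE n p).comp (by fun_prop))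
    have : Continuous fun z : ℝ × (Mt n n × Mt n n) => CC n z.1 z.2 := by
      unfold CC
      fun_prop
    exact this.measurable
  exact h1.lintegral_prod_right'

theorem measurable_W2 (n : ℕ) (p : ℝ) : Measurable fun s : ℝ => W2 n p s := by
  simp_rw [W2_eq]
  exact (measurable_FE n p).ennreal_toReal.div_const _

theorem W2_le (n : ℕ) {p s : ℝ} (hp : 0 < p) (h0 : 0 ≤ s) (h1 : s ≤ 1) :
    W2 n p s ≤ NR n (2 * p) / NR n p ^ 2 := by
  rw [W2_eq]
  have := NR_pos' n hp
  gcongr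
  exact ENNReal.toReal_le_of_le_ofReal (NR_pos' n (by linarith)).le (FE_le n p s hp.le h0 h1)

/-- the two point function of `Nh` -/
theorem lint_NN (n : ℕ) {p : ℝ} (hp : 0 < p) (z : S2 × S2) :
    ∫⁻ x, ENNReal.ofReal (Nh n p z.1 x) * ENNReal.ofReal (Nh n p z.2 x) ∂gg n =
      ENNReal.ofReal (W2 n p (sc z)) := by
  simp_rw [Nh_eq]
  rw [two_W2 n p hp (sa_sb z.1) (sa_sb z.2), sc_eq]

theorem meas_NN (n : ℕ) (p : ℝ) : Measurable fun y : (S2 × S2) × (Mt n n × Mt n n) =>
    Nh n p y.1.1 y.2 * Nh n p y.1.2 y.2 := by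
  have h := measurable_Nh n p
  have h1 : Measurable fun y : (S2 × S2) × (Mt n n × Mt n n) => (y.1.1, y.2) :=
    (measurable_fst.comp measurable_fst).prodMk measurable_snd
  have h2 : Measurable fun y : (S2 × S2) × (Mt n n × Mt n n) => (y.1.2, y.2) :=
    (measurable_snd.comp measurable_fst).prodMk measurable_snd
  have h3 := h.comp h1
  have h4 := h.comp h2
  exact h3.mul h4

theorem int_NN (n : ℕ) {p : ℝ} (hp : 0 < p) (z : S2 × S2) :
    Integrable (fun x => Nh n p z.1 x * Nh n p z.2 x) (gg n) ∧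
    ∫ x, Nh n p z.1 x * Nh n p z.2 x ∂gg n = W2 n p (sc z) := by
  have h0 : ∀ x, 0 ≤ Nh n p z.1 x * Nh n p z.2 x := fun x =>
    mul_nonneg (Nh_nonneg n hp _ _) (Nh_nonneg n hp _ _)
  have hm : Measurable fun x => Nh n p z.1 x * Nh n p z.2 x := by
    have h1 : Measurable fun x : Mt n n × Mt n n => (z, x) := measurable_const.prodMk measurable_id
    have h2 := (meas_NN n p).comp h1
    exact h2
  have h1 := lint_NN n hp z
  have h2 : ∫⁻ x, ENNReal.ofReal (Nh n p z.1 x * Nh n p z.2 x) ∂gg n =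
      ENNReal.ofReal (W2 n p (sc z)) := by
    rw [← h1]
    refine lintegral_congr fun x => ?_
    rw [ENNReal.ofReal_mul (Nh_nonneg n hp _ _)]
  constructor
  · refine ⟨hm.aestronglyMeasurable, ?_⟩
    rw [hasFiniteIntegral_iff_ofReal (Eventually.of_forall h0), h2]
    exact ENNReal.ofReal_lt_top
  · rw [integral_eq_lintegral_of_nonneg_ae (Eventually.of_forall h0) hm.aestronglyMeasurable, h2,
      ENNReal.toReal_ofReal (W2_nonneg n p _)]

/-- joint integrability -/
theorem int_joint (n : ℕ) {p : ℝ} (hp : 0 < p) (f : C(S2, ℝ)) :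
    Integrable (fun y : (S2 × S2) × (Mt n n × Mt n n) =>
      f y.1.1 * f y.1.2 * (Nh n p y.1.1 y.2 * Nh n p y.1.2 y.2)) ((nu.prod nu).prod (gg n)) := by
  have hm1 := meas_NN n p
  have h0 : ∀ y : (S2 × S2) × (Mt n n × Mt n n), 0 ≤ Nh n p y.1.1 y.2 * Nh n p y.1.2 y.2 :=
    fun y => mul_nonneg (Nh_nonneg n hp _ _) (Nh_nonneg n hp _ _)
  have hI : Integrable (fun y : (S2 × S2) × (Mt n n × Mt n n) =>
      Nh n p y.1.1 y.2 * Nh n p y.1.2 y.2) ((nu.prod nu).prod (gg n)) := by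
    rw [integrable_prod_iff hm1.aestronglyMeasurable]
    refine ⟨Eventually.of_forall fun z => (int_NN n hp z).1, ?_⟩
    have e : (fun z : S2 × S2 => ∫ x, ‖Nh n p z.1 x * Nh n p z.2 x‖ ∂gg n) =
        fun z => W2 n p (sc z) := by
      funext z
      rw [← (int_NN n hp z).2]
      refine integral_congr_ae (Eventually.of_forall fun x => ?_)
      exact Real.norm_of_nonneg (mul_nonneg (Nh_nonneg n hp _ _) (Nh_nonneg n hp _ _))
    rw [e]
    refine Integrable.of_bound (C := NR n (2 * p) / NR n p ^ 2)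
      ((measurable_W2 n p).comp continuous_sc.measurable).aestronglyMeasurable
      (Eventually.of_forall fun z => ?_)
    rw [Real.norm_of_nonneg (W2_nonneg _ _ _)]
    exact W2_le n hp (sc_nonneg z) (sc_le z)
  have hc : Continuous fun y : (S2 × S2) × (Mt n n × Mt n n) => f y.1.1 * f y.1.2 := by fun_prop
  refine Integrable.bdd_mul (c := ‖f‖ * ‖f‖) hI hc.aestronglyMeasurable
    (Eventually.of_forall fun y => ?_)
  rw [norm_mul]
  exact mul_le_mul (f.norm_coe_le_norm _) (f.norm_coe_le_norm _) (norm_nonneg _) (norm_nonneg _)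

theorem XN_sq (n : ℕ) (p : ℝ) (f : C(S2, ℝ)) (x : Mt n n × Mt n n) :
    XN n p f x ^ 2 = ∫ z : S2 × S2, f z.1 * f z.2 * (Nh n p z.1 x * Nh n p z.2 x) ∂nu.prod nu := by
  have h := integral_prod_mul (μ := nu) (ν := nu) (fun u : S2 => f u * Nh n p u x)
    (fun u : S2 => f u * Nh n p u x)
  rw [sq]
  unfold XN
  rw [← h]
  refine integral_congr_ae (Eventually.of_forall fun z => ?_)
  simp only
  ring

theorem XN_int (n : ℕ) {p : ℝ} (hp : 0 < p) (f : C(S2, ℝ)) :
    Integrable (fun x => XN n p f x ^ 2) (gg n) ∧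
    ∫ x, XN n p f x ^ 2 ∂gg n = ∫ z : S2 × S2, f z.1 * f z.2 * W2 n p (sc z) ∂nu.prod nu := by
  have hI := int_joint n hp f
  simp_rw [XN_sq]
  constructor
  · exact hI.integral_prod_right
  · have h1 := integral_integral_swap (μ := nu.prod nu) (ν := gg n)
      (f := fun (z : S2 × S2) x => f z.1 * f z.2 * (Nh n p z.1 x * Nh n p z.2 x)) hI
    rw [← h1]
    refine integral_congr_ae (Eventually.of_forall fun z => ?_)
    simp only
    rw [integral_const_mul, (int_NN n hp z).2]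

theorem rpow_fin {q : ℝ} (hq : q < 1) :
    ∫⁻ t in Set.Icc (0 : ℝ) 1, ENNReal.ofReal ((1 - t) ^ (-q)) < ∞ := by
  have h1 : IntervalIntegrable (fun x : ℝ => x ^ (-q)) volume 0 1 :=
    intervalIntegral.intervalIntegrable_rpow' (by linarith)
  have h2 : IntervalIntegrable (fun x : ℝ => (1 - x) ^ (-q)) volume 1 0 := by
    have := h1.comp_sub_left 1
    simpa using this
  have h3 : IntegrableOn (fun x : ℝ => (1 - x) ^ (-q)) (Set.Icc 0 1) := by
    rw [integrableOn_Icc_iff_integrableOn_Ioc]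
    have := h2.symm
    rw [intervalIntegrable_iff_integrableOn_Ioc_of_le (by norm_num)] at this
    exact this
  have h4 := h3.2
  rw [hasFiniteIntegral_iff_ofReal] at h4
  · exact h4
  · refine (ae_restrict_iff' measurableSet_Icc).2 (Eventually.of_forall fun t ht => ?_)
    exact Real.rpow_nonneg (by linarith [ht.2]) _

theorem s_L2 : S_L2 := by
  intro p hp hp1 f
  set q : ℝ := p ^ 2 with hq
  have hq1 : q < 1 := by rw [hq]; nlinarith
  set K : S2 × S2 → ℝ := fun z => (‖(z.1 : R3) - (z.2 : R3)‖ ^ 2 / 4) ^ (-q) with hK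
  have hKs : ∀ z, K z = (1 - sc z) ^ (-q) := by
    intro z
    rw [hK]
    unfold sc
    ring_nf
  have hK0 : ∀ z, 0 ≤ K z := fun z => by rw [hK]; positivity
  have mh : Measurable fun t : ℝ => (1 - t) ^ (-q) := by fun_prop
  have mK : Measurable K := by
    have e : K = fun z => (1 - sc z) ^ (-q) := funext hKs
    rw [e]
    exact mh.comp continuous_sc.measurable
  have iK : Integrable K (nu.prod nu) := by
    refine ⟨mK.aestronglyMeasurable, ?_⟩
    rw [hasFiniteIntegral_iff_ofReal (Eventually.of_forall hK0)]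
    simp_rw [hKs]
    rw [lint_sc (h := fun t => ENNReal.ofReal ((1 - t) ^ (-q))) mh.ennreal_ofReal]
    exact rpow_fin hq1
  have hc : Continuous fun z : S2 × S2 => f z.1 * f z.2 := by fun_prop
  have hcb : ∀ z : S2 × S2, ‖f z.1 * f z.2‖ ≤ ‖f‖ * ‖f‖ := fun z => by
    rw [norm_mul]
    exact mul_le_mul (f.norm_coe_le_norm _) (f.norm_coe_le_norm _) (norm_nonneg _) (norm_nonneg _)
  have iFK : Integrable (fun z : S2 × S2 => f z.1 * f z.2 * K z) (nu.prod nu) :=
    Integrable.bdd_mul (c := ‖f‖ * ‖f‖) iK hc.aestronglyMeasurable (Eventually.of_forall hcb)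
  refine ⟨fun n => (XN_int n hp f).1, iFK, ?_⟩
  have iW : ∀ n, Integrable (fun z : S2 × S2 => W2 n p (sc z)) (nu.prod nu) := by
    intro n
    refine Integrable.of_bound (C := NR n (2 * p) / NR n p ^ 2)
      ((measurable_W2 n p).comp continuous_sc.measurable).aestronglyMeasurable
      (Eventually.of_forall fun z => ?_)
    rw [Real.norm_of_nonneg (W2_nonneg _ _ _)]
    exact W2_le n hp (sc_nonneg z) (sc_le z)
  have iFW : ∀ n, Integrable (fun z : S2 × S2 => f z.1 * f z.2 * W2 n p (sc z)) (nu.prod nu) :=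
    fun n => Integrable.bdd_mul (c := ‖f‖ * ‖f‖) (iW n) hc.aestronglyMeasurable
      (Eventually.of_forall hcb)
  -- the difference
  have hT := s_TWOPT p hp hp1
  have hT' : Tendsto (fun n : ℕ => (∫⁻ s in Set.Icc (0 : ℝ) 1,
      ENNReal.ofReal |W2 n p s - (1 - s) ^ (-q)|).toReal) atTop (𝓝 0) := by
    have := (ENNReal.tendsto_toReal (ENNReal.zero_ne_top)).comp hT
    exact this
  have hT'' : Tendsto (fun n : ℕ => ‖f‖ * ‖f‖ * (∫⁻ s in Set.Icc (0 : ℝ) 1,
      ENNReal.ofReal |W2 n p s - (1 - s) ^ (-q)|).toReal) atTop (𝓝 0) := by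
    have := hT'.const_mul (‖f‖ * ‖f‖)
    rwa [mul_zero] at this
  rw [tendsto_iff_norm_sub_tendsto_zero]
  refine squeeze_zero (fun _ => norm_nonneg _) (fun n => ?_) hT''
  rw [(XN_int n hp f).2]
  show ‖∫ z : S2 × S2, f z.1 * f z.2 * W2 n p (sc z) ∂nu.prod nu -
    ∫ z : S2 × S2, f z.1 * f z.2 * K z ∂nu.prod nu‖ ≤ _
  rw [← integral_sub (iFW n) iFK]
  have hd : Integrable (fun z : S2 × S2 => |W2 n p (sc z) - K z|) (nu.prod nu) :=
    ((iW n).sub iK).abs
  have hle : ‖∫ z : S2 × S2, (f z.1 * f z.2 * W2 n p (sc z) - f z.1 * f z.2 * K z) ∂nu.prod nu‖ ≤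
      ∫ z : S2 × S2, ‖f‖ * ‖f‖ * |W2 n p (sc z) - K z| ∂nu.prod nu := by
    refine norm_integral_le_of_norm_le (hd.const_mul _) (Eventually.of_forall fun z => ?_)
    rw [← mul_sub, norm_mul, Real.norm_eq_abs (W2 n p (sc z) - K z)]
    exact mul_le_mul_of_nonneg_right (hcb z) (abs_nonneg _)
  refine hle.trans (le_of_eq ?_)
  rw [integral_const_mul, integral_eq_lintegral_of_nonneg_ae
    (Eventually.of_forall fun z => abs_nonneg _) hd.aestronglyMeasurable]
  congr 2
  simp_rw [hKs]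
  exact lint_sc (h := fun t => ENNReal.ofReal |W2 n p t - (1 - t) ^ (-q)|)
    (((measurable_W2 n p).sub mh).abs.ennreal_ofReal)

end

end Pool.Agent.K7.H98.GMC
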