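import Pool.Agent.K7.H98.GMC.L2
import Pool.Agent.K7.H95.GMC.Cf

/-!
`S_MART` (MP_55470d_pr): the martingale of the truncated determinants.
-/

set_option autoImplicit false

open MeasureTheory Complex Filter Topology
open scoped ENNReal NNReal ComplexConjugate

namespace Pool.Agent.K7.H98.GM2

open Pool.Agent.R923.SE Pool.Agent.R923.SE.NX
open Pool.Agent.K7.H95.GMC
open Pool.Agent.K7.H98.GMC hiding gE measurable_gE

noncomputable section

theorem DM_nonneg {n : ℕ} (a b : ℂ) (m : ℕ) (w : Fin m → E n) : 0 ≤ DM a b m w := by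
  induction m with
  | zero => simp [DM]
  | succ m ih =>
    rw [DM]
    exact mul_nonneg (ih _) (RR_nonneg _ _)

theorem meas_QQ' {n : ℕ} (m : ℕ) (i j : Fin n) :
    Measurable fun z : S2 × (Fin m → E n) => QQ (sa z.1) (sb z.1) m z.2 i j := by
  induction m generalizing i j with
  | zero => unfold QQ; exact measurable_const
  | succ m ih =>
    have hinit : Measurable fun z : S2 × (Fin (m + 1) → E n) =>
        (z.1, Fin.init (α := fun _ => E n) z.2) :=
      measurable_fst.prodMk ((measurable_fst.comp meas_init).comp measurable_snd)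
    have hQ : ∀ i j, Measurable fun z : S2 × (Fin (m + 1) → E n) =>
        QQ (sa z.1) (sb z.1) m (Fin.init (α := fun _ => E n) z.2) i j :=
      fun i j => (ih i j).comp hinit
    have hc : ∀ i, Measurable fun z : S2 × (Fin (m + 1) → E n) =>
        cx (sa z.1) (sb z.1) (z.2 (Fin.last m)) i := by
      intro i
      have h1 := measurable_sa
      have h2 := measurable_sb
      unfold cx
      fun_prop
    exact meas_upd hQ hc i j

theorem meas_cx' {n m : ℕ} (k : Fin m) (i : Fin n) : Measurable fun z : S2 × (Fin m → E n) =>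
    cx (sa z.1) (sb z.1) (z.2 k) i := by
  have h1 := measurable_sa
  have h2 := measurable_sb
  unfold cx
  fun_prop

theorem meas_DM {n : ℕ} (m : ℕ) :
    Measurable fun z : S2 × (Fin m → E n) => DM (sa z.1) (sb z.1) m z.2 := by
  induction m with
  | zero => unfold DM; exact measurable_const
  | succ m ih =>
    have hinit : Measurable fun z : S2 × (Fin (m + 1) → E n) =>
        (z.1, Fin.init (α := fun _ => E n) z.2) :=
      measurable_fst.prodMk ((measurable_fst.comp meas_init).comp measurable_snd)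
    have hQ : ∀ i j, Measurable fun z : S2 × (Fin (m + 1) → E n) =>
        QQ (sa z.1) (sb z.1) m (Fin.init (α := fun _ => E n) z.2) i j :=
      fun i j => (meas_QQ' m i j).comp hinit
    have h1 := ih.comp hinit
    have h2 := meas_RR hQ (fun i => meas_cx' (n := n) (Fin.last m) i)
    exact h1.mul h2

theorem meas_NM (n : ℕ) (p : ℝ) (m : ℕ) :
    Measurable fun z : S2 × (Fin m → E n) => NM n p m z.1 z.2 := by
  unfold NM
  exact ((meas_DM m).pow_const p).div_const _

theorem NM_nonneg {n m : ℕ} (hm : m ≤ n) {p : ℝ} (hp : 0 < p) (u : S2) (w : Fin m → E n) :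
    0 ≤ NM n p m u w := by
  unfold NM
  exact div_nonneg (Real.rpow_nonneg (DM_nonneg _ _ _ _) _) (ZM_pos hm hp).le

/-- the normalising constant of one step -/
def zc (n m : ℕ) (p : ℝ) : ℝ := Real.Gamma (((n - m : ℕ) : ℝ) + p) / Real.Gamma ((n - m : ℕ) : ℝ)

theorem zc_pos {n m : ℕ} (hm : m < n) {p : ℝ} (hp : 0 < p) : 0 < zc n m p := by
  unfold zc
  have h1 : (0 : ℝ) < ((n - m : ℕ) : ℝ) := by exact_mod_cast (by omega : 0 < n - m)
  exact div_pos (Real.Gamma_pos_of_pos (by linarith)) (Real.Gamma_pos_of_pos h1)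

theorem NM_sn {n m : ℕ} (p : ℝ) (u : S2) (w : Fin m → E n) (e : E n) :
    NM n p (m + 1) u (sn (w, e)) = NM n p m u w *
      (RR (QQ (sa u) (sb u) m w) (cx (sa u) (sb u) e) ^ p / zc n m p) := by
  unfold NM
  have h1 : DM (sa u) (sb u) (m + 1) (sn (w, e)) = DM (sa u) (sb u) m w *
      RR (QQ (sa u) (sb u) m w) (cx (sa u) (sb u) e) := by
    rw [DM, init_sn, last_sn]
  have h2 : ZM n p (m + 1) = ZM n p m * zc n m p := by
    unfold ZM zc
    rw [Finset.prod_range_succ]
  rw [h1, h2, Real.mul_rpow (DM_nonneg _ _ _ _) (RR_nonneg _ _)]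
  exact mul_div_mul_comm _ _ _ _

theorem lint_one {n m : ℕ} (hm : m < n) {p : ℝ} (hp : 0 < p) {u : S2} {w : Fin m → E n}
    (hQ : PQ n (n - m) (QQ (sa u) (sb u) m w)) :
    ∫⁻ e, ENNReal.ofReal (NM n p (m + 1) u (sn (w, e))) ∂gE n = ENNReal.ofReal (NM n p m u w) := by
  have hr : 0 < n - m := by omega
  have hr' : (0 : ℝ) < ((n - m : ℕ) : ℝ) := by exact_mod_cast hr
  obtain ⟨g1, g2⟩ := gam_mom hr p (by linarith)
  obtain ⟨i1, i2⟩ := int_cx hQ (sa_sb u) (g := fun t => t ^ p / zc n m p) (by fun_prop)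
    (g1.div_const _)
  have hz := zc_pos hm hp
  have i3 : ∫ e : E n, RR (QQ (sa u) (sb u) m w) (cx (sa u) (sb u) e) ^ p / zc n m p ∂gE n = 1 := by
    rw [i2, integral_div, g2]
    exact div_self hz.ne'
  simp_rw [NM_sn, ENNReal.ofReal_mul (NM_nonneg hm.le hp u w)]
  have hmR : Measurable fun e : E n => ENNReal.ofReal
      (RR (QQ (sa u) (sb u) m w) (cx (sa u) (sb u) e) ^ p / zc n m p) :=
    (((measurable_RRcx _ _ _).pow_const p).div_const _).ennreal_ofReal
  rw [lintegral_const_mul _ hmR, ← ofReal_integral_eq_lintegral_ofReal i1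
    (Eventually.of_forall fun e => div_nonneg (Real.rpow_nonneg (RR_nonneg _ _) _) hz.le), i3,
    ENNReal.ofReal_one, mul_one]

/-- measurability of the set of projections -/
theorem meas_PQ {α : Type*} [MeasurableSpace α] {n r : ℕ} {Q : α → Matrix (Fin n) (Fin n) ℂ}
    (hq : ∀ i j, Measurable fun x => Q x i j) : MeasurableSet {x | PQ n r (Q x)} := by
  have e : {x | PQ n r (Q x)} =
      {x | (∀ i j, conj (Q x j i) = Q x i j) ∧
        (∀ i j, ∑ k, Q x i k * Q x k j = Q x i j) ∧
        ∑ i, Q x i i = ((r : ℕ) : ℂ)} := by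
    ext x
    constructor
    · intro h
      refine ⟨fun i j => ?_, fun i j => ?_, ?_⟩
      · exact congrFun (congrFun h.herm i) j
      · have := congrFun (congrFun h.idem i) j
        rwa [Matrix.mul_apply] at this
      · exact h.tr
    · rintro ⟨h1, h2, h3⟩
      refine ⟨?_, ?_, h3⟩
      · ext i j
        exact h1 i j
      · ext i j
        rw [Matrix.mul_apply]
        exact h2 i j
  rw [e]
  refine MeasurableSet.inter ?_ (MeasurableSet.inter ?_ ?_)
  · refine meas_forall2 fun i j => ?_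
    exact measurableSet_eq_fun (Complex.continuous_conj.measurable.comp (hq j i)) (hq i j)
  · refine meas_forall2 fun i j => ?_
    exact measurableSet_eq_fun
      (Finset.measurable_fun_sum _ fun k _ => (hq i k).mul (hq k j)) (hq i j)
  · exact measurableSet_eq_fun (Finset.measurable_fun_sum _ fun i _ => hq i i) measurable_const

theorem ae_ae_PQ {n : ℕ} (m : ℕ) (hm : m ≤ n) :
    ∀ᵐ w ∂PP n m, ∀ᵐ u ∂nu, PQ n (n - m) (QQ (sa u) (sb u) m w) := by
  have hS : MeasurableSet {z : S2 × (Fin m → E n) | PQ n (n - m) (QQ (sa z.1) (sb z.1) m z.2)} :=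
    meas_PQ (fun i j => meas_QQ' m i j)
  have h1 : ∀ᵐ z ∂nu.prod (PP n m), PQ n (n - m) (QQ (sa z.1) (sb z.1) m z.2) := by
    rw [Measure.ae_prod_iff_ae_ae hS]
    exact Eventually.of_forall fun u => ae_PQ (sa_sb u) m hm
  have hS' : MeasurableSet {z : (Fin m → E n) × S2 | PQ n (n - m) (QQ (sa z.2) (sb z.2) m z.1)} :=
    hS.preimage measurable_swap
  have h2 : ∀ᵐ z ∂(PP n m).prod nu, PQ n (n - m) (QQ (sa z.2) (sb z.2) m z.1) :=
    (Measure.measurePreserving_swap (μ := PP n m) (ν := nu)).quasiMeasurePreserving.ae h1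
  rwa [Measure.ae_prod_iff_ae_ae hS'] at h2

/-- the total mass -/
def Ym (n : ℕ) (p : ℝ) (m : ℕ) (w : Fin m → E n) : ℝ≥0∞ :=
  ∫⁻ u, ENNReal.ofReal (NM n p m u w) ∂nu

theorem meas_Ym (n : ℕ) (p : ℝ) (m : ℕ) : Measurable (Ym n p m) := by
  have h := (meas_NM n p m).ennreal_ofReal
  exact h.lintegral_prod_left'

theorem meas_snw {n m : ℕ} (w : Fin m → E n) : Measurable fun e : E n => sn (w, e) := by
  have h1 : Measurable fun e : E n => ((w, e) : (Fin m → E n) × E n) :=
    measurable_const.prodMk measurable_id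
  have h2 : Measurable (sn : (Fin m → E n) × E n → (Fin (m + 1) → E n)) := (mp_sn n m).measurable
  exact h2.comp h1

theorem meas_NMsn {n m : ℕ} (p : ℝ) (w : Fin m → E n) :
    Measurable fun z : S2 × E n => NM n p (m + 1) z.1 (sn (w, z.2)) := by
  have h0 : Measurable fun z : S2 × E n => z.2 := measurable_snd
  have h1 : Measurable fun z : S2 × E n => sn (w, z.2) := (meas_snw w).comp h0
  have h2 : Measurable fun z : S2 × E n => ((z.1, sn (w, z.2)) : S2 × (Fin (m + 1) → E n)) := by
    exact measurable_fst.prodMk h1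
  have h3 : Measurable (fun z : S2 × (Fin (m + 1) → E n) => NM n p (m + 1) z.1 z.2) :=
    meas_NM n p (m + 1)
  have h4 := h3.comp h2
  have e : (fun z : S2 × E n => NM n p (m + 1) z.1 (sn (w, z.2))) =
    (fun z : S2 × (Fin (m + 1) → E n) => NM n p (m + 1) z.1 z.2) ∘
      (fun z : S2 × E n => ((z.1, sn (w, z.2)) : S2 × (Fin (m + 1) → E n))) := by
    funext z
    rfl
  rw [e]
  exact h4

theorem Ym_step {n m : ℕ} (hm : m < n) {p : ℝ} (hp : 0 < p) :
    ∀ᵐ w ∂PP n m, ∫⁻ e, Ym n p (m + 1) (sn (w, e)) ∂gE n = Ym n p m w := by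
  filter_upwards [ae_ae_PQ m hm.le] with w hw
  unfold Ym
  have hms : Measurable fun z : E n × S2 => ENNReal.ofReal (NM n p (m + 1) z.2 (sn (w, z.1))) := by
    have g1 : Measurable fun z : E n × S2 => ((z.2, z.1) : S2 × E n) :=
      measurable_snd.prodMk measurable_fst
    have g2 := (meas_NMsn p w).comp g1
    exact g2.ennreal_ofReal
  have h1 := lintegral_lintegral_swap (μ := gE n) (ν := nu)
    (f := fun (e : E n) (u : S2) => ENNReal.ofReal (NM n p (m + 1) u (sn (w, e))))
    hms.aemeasurable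
  rw [h1]
  refine lintegral_congr_ae ?_
  filter_upwards [hw] with u hu
  exact lint_one hm hp hu

/-- Cauchy-Schwarz for a probability measure -/
theorem sq_lint_le {Ω : Type*} [MeasurableSpace Ω] (μ : Measure Ω) [IsProbabilityMeasure μ]
    {g : Ω → ℝ≥0∞} (hg : AEMeasurable g μ) : (∫⁻ ω, g ω ∂μ) ^ 2 ≤ ∫⁻ ω, g ω ^ 2 ∂μ := by
  have h := ENNReal.lintegral_mul_le_Lp_mul_Lq μ (Real.HolderConjugate.two_two) hg
    (aemeasurable_const (b := (1 : ℝ≥0∞)))
  simp only [Pi.mul_apply, mul_one, ENNReal.one_rpow, lintegral_const, measure_univ] at h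
  have h2 := pow_le_pow_left' h 2
  refine h2.trans (le_of_eq ?_)
  rw [← ENNReal.rpow_natCast, ← ENNReal.rpow_mul]
  norm_num

theorem Ym_sq_le {n m : ℕ} (hm : m < n) {p : ℝ} (hp : 0 < p) :
    ∫⁻ w, Ym n p m w ^ 2 ∂PP n m ≤ ∫⁻ w, Ym n p (m + 1) w ^ 2 ∂PP n (m + 1) := by
  have hY := meas_Ym n p (m + 1)
  have hY2 : Measurable fun w : Fin (m + 1) → E n => Ym n p (m + 1) w ^ 2 := hY.pow_const 2
  have h1 := (mp_sn n m).lintegral_comp hY2
  have hs : Measurable fun x : (Fin m → E n) × E n => Ym n p (m + 1) (sn x) ^ 2 :=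
    hY2.comp (mp_sn n m).measurable
  have h2 := lintegral_prod (μ := PP n m) (ν := gE n) (fun x : (Fin m → E n) × E n =>
    Ym n p (m + 1) (sn x) ^ 2) hs.aemeasurable
  rw [← h1, h2]
  refine lintegral_mono_ae ?_
  filter_upwards [Ym_step hm hp] with w hw
  rw [← hw]
  have h3 : Measurable fun e : E n => Ym n p (m + 1) (sn (w, e)) := hY.comp (meas_snw w)
  exact sq_lint_le _ h3.aemeasurable

theorem Ym_top_fin (n : ℕ) {p : ℝ} (hp : 0 < p) : ∫⁻ w, Ym n p n w ^ 2 ∂PP n n < ∞ := by
  obtain ⟨hT, -⟩ := s_TOP n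
  have e1 : ∀ w : Fin n → E n, Ym n p n w =
      ∫⁻ u, ENNReal.ofReal (Nh n p u (fun i => (w i).1, fun i => (w i).2)) ∂nu := by
    intro w
    unfold Ym
    refine lintegral_congr fun u => ?_
    unfold NM Nh
    rw [s_GS2, ZM_top, ← Real.rpow_natCast, ← Real.rpow_mul (norm_nonneg _)]
    norm_num
  simp_rw [e1]
  have hmN : Measurable fun x : Mt n n × Mt n n => ∫⁻ u, ENNReal.ofReal (Nh n p u x) ∂nu :=
    (measurable_Nh n p).ennreal_ofReal.lintegral_prod_left'
  have hmN2 : Measurable fun x : Mt n n × Mt n n =>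
      (∫⁻ u, ENNReal.ofReal (Nh n p u x) ∂nu) ^ 2 := hmN.pow_const 2
  have h1 := hT.lintegral_comp hmN2
  rw [h1]
  have h2 : ∀ x : Mt n n × Mt n n, (∫⁻ u, ENNReal.ofReal (Nh n p u x) ∂nu) ^ 2 =
      ∫⁻ z : S2 × S2, ENNReal.ofReal (Nh n p z.1 x) * ENNReal.ofReal (Nh n p z.2 x)
        ∂nu.prod nu := by
    intro x
    have hmx : Measurable fun u : S2 => ENNReal.ofReal (Nh n p u x) := by
      have g1 : Measurable fun u : S2 => ((u, x) : S2 × (Mt n n × Mt n n)) :=
        measurable_id.prodMk measurable_const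
      have g2 := (measurable_Nh n p).comp g1
      exact g2.ennreal_ofReal
    rw [sq, lintegral_prod_mul hmx.aemeasurable hmx.aemeasurable]
  simp_rw [h2]
  have hmz : Measurable fun y : (Mt n n × Mt n n) × (S2 × S2) =>
      ENNReal.ofReal (Nh n p y.2.1 y.1) * ENNReal.ofReal (Nh n p y.2.2 y.1) := by
    have h := measurable_Nh n p
    have g1 : Measurable fun y : (Mt n n × Mt n n) × (S2 × S2) =>
        ((y.2.1, y.1) : S2 × (Mt n n × Mt n n)) :=
      (measurable_fst.comp measurable_snd).prodMk measurable_fst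
    have g2 : Measurable fun y : (Mt n n × Mt n n) × (S2 × S2) =>
        ((y.2.2, y.1) : S2 × (Mt n n × Mt n n)) :=
      (measurable_snd.comp measurable_snd).prodMk measurable_fst
    have g3 := h.comp g1
    have g4 := h.comp g2
    exact g3.ennreal_ofReal.mul g4.ennreal_ofReal
  rw [lintegral_lintegral_swap (μ := gg n) (ν := nu.prod nu)
    (f := fun (x : Mt n n × Mt n n) (z : S2 × S2) =>
      ENNReal.ofReal (Nh n p z.1 x) * ENNReal.ofReal (Nh n p z.2 x)) hmz.aemeasurable]
  simp_rw [lint_NN n hp]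
  calc ∫⁻ z, ENNReal.ofReal (W2 n p (sc z)) ∂nu.prod nu
      ≤ ∫⁻ _z : S2 × S2, ENNReal.ofReal (NR n (2 * p) / NR n p ^ 2) ∂nu.prod nu := by
        refine lintegral_mono fun z => ENNReal.ofReal_le_ofReal ?_
        exact W2_le n hp (sc_nonneg z) (sc_le z)
    _ < ∞ := by simp

theorem Ym_fin {n : ℕ} {p : ℝ} (hp : 0 < p) (m : ℕ) (hm : m ≤ n) :
    ∫⁻ w, Ym n p m w ^ 2 ∂PP n m < ∞ := by
  obtain ⟨k, rfl⟩ := Nat.exists_eq_add_of_le hm
  -- downward induction
  have h : ∀ j, ∀ m, m + j = m + k → True := fun _ _ _ => trivial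
  clear h
  have key : ∀ (N : ℕ) (j : ℕ) (m : ℕ), m + j = N → ∫⁻ w, Ym N p m w ^ 2 ∂PP N m < ∞ := by
    intro N j
    induction j with
    | zero =>
      intro m hmj
      rw [add_zero] at hmj
      subst hmj
      exact Ym_top_fin m hp
    | succ j ih =>
      intro m hmj
      exact (Ym_sq_le (by omega) hp).trans_lt (ih (m + 1) (by omega))
  exact key _ k m rfl

theorem meas_XM (n : ℕ) (p : ℝ) (m : ℕ) (f : C(S2, ℝ)) : StronglyMeasurable (XM n p m f) := by
  unfold XM
  have h1 : Measurable fun z : (Fin m → E n) × S2 => f z.2 * NM n p m z.2 z.1 := by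
    have g1 : Measurable fun z : (Fin m → E n) × S2 => f z.2 :=
      f.continuous.measurable.comp measurable_snd
    have g2 : Measurable fun z : (Fin m → E n) × S2 => ((z.2, z.1) : S2 × (Fin m → E n)) :=
      measurable_snd.prodMk measurable_fst
    have g3 := (meas_NM n p m).comp g2
    exact g1.mul g3
  exact h1.stronglyMeasurable.integral_prod_right'

theorem XM_le {n m : ℕ} (hm : m ≤ n) {p : ℝ} (hp : 0 < p) (f : C(S2, ℝ)) (w : Fin m → E n)
    (hw : Ym n p m w < ∞) : |XM n p m f w| ≤ ‖f‖ * (Ym n p m w).toReal := by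
  have hmw : Measurable fun u : S2 => NM n p m u w := by
    have g1 : Measurable fun u : S2 => ((u, w) : S2 × (Fin m → E n)) :=
      measurable_id.prodMk measurable_const
    have g2 := (meas_NM n p m).comp g1
    exact g2
  have h0 : ∀ u, 0 ≤ NM n p m u w := fun u => NM_nonneg hm hp u w
  have hI : Integrable (fun u => NM n p m u w) nu := by
    refine ⟨hmw.aestronglyMeasurable, ?_⟩
    rw [hasFiniteIntegral_iff_ofReal (Eventually.of_forall h0)]
    exact hw
  have h1 : (Ym n p m w).toReal = ∫ u, NM n p m u w ∂nu := by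
    rw [integral_eq_lintegral_of_nonneg_ae (Eventually.of_forall h0) hmw.aestronglyMeasurable]
    rfl
  rw [h1, ← integral_const_mul, ← Real.norm_eq_abs]
  unfold XM
  refine norm_integral_le_of_norm_le (hI.const_mul _) (Eventually.of_forall fun u => ?_)
  rw [norm_mul, Real.norm_of_nonneg (h0 u)]
  exact mul_le_mul_of_nonneg_right (f.norm_coe_le_norm u) (h0 u)

theorem ae_Ym_fin {n : ℕ} {p : ℝ} (hp : 0 < p) (m : ℕ) (hm : m ≤ n) :
    ∀ᵐ w ∂PP n m, Ym n p m w < ∞ := by
  filter_upwards [ae_lt_top ((meas_Ym n p m).pow_const 2) (Ym_fin hp m hm).ne] with w hw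
  by_contra hcon
  rw [not_lt, top_le_iff] at hcon
  rw [hcon] at hw
  simp at hw

theorem XM_sq_int {n : ℕ} {p : ℝ} (hp : 0 < p) (f : C(S2, ℝ)) (m : ℕ) (hm : m ≤ n) :
    Integrable (fun w : Fin m → E n => XM n p m f w ^ 2) (PP n m) := by
  have hY : Integrable (fun w : Fin m → E n => (Ym n p m w ^ 2).toReal) (PP n m) :=
    integrable_toReal_of_lintegral_ne_top ((meas_Ym n p m).pow_const 2).aemeasurable
      (Ym_fin hp m hm).ne
  refine (hY.const_mul (‖f‖ ^ 2)).mono' ((meas_XM n p m f).pow 2).aestronglyMeasurable ?_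
  filter_upwards [ae_Ym_fin hp m hm] with w hw
  have h1 := XM_le hm hp f w hw
  rw [Real.norm_of_nonneg (sq_nonneg _), ← sq_abs, ENNReal.toReal_pow, ← mul_pow]
  exact pow_le_pow_left₀ (abs_nonneg _) h1 2

/-- conditional expectation and Fubini -/
theorem gen_swap {α β : Type*} [MeasurableSpace α] [MeasurableSpace β] (μ : Measure α)
    (ν : Measure β) [SFinite μ] [SFinite ν] (F : α → β → ℝ)
    (hF : Measurable fun z : α × β => F z.1 z.2)
    (h0 : ∀ a b, 0 ≤ F a b) (G : α → ℝ)
    (hG : ∀ᵐ a ∂μ, ∫⁻ b, ENNReal.ofReal (F a b) ∂ν = ENNReal.ofReal (G a)) (hG0 : ∀ a, 0 ≤ G a)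
    (hfin : ∫⁻ a, ENNReal.ofReal (G a) ∂μ < ∞) (f : α → ℝ) (hf : Measurable f) (C : ℝ)
    (hC : ∀ a, ‖f a‖ ≤ C) : ∫ b, ∫ a, f a * F a b ∂μ ∂ν = ∫ a, f a * G a ∂μ := by
  have hI : Integrable (fun z : α × β => F z.1 z.2) (μ.prod ν) := by
    refine ⟨hF.aestronglyMeasurable, ?_⟩
    have h00 : ∀ᵐ z : α × β ∂μ.prod ν, 0 ≤ F z.1 z.2 := Eventually.of_forall fun z => h0 z.1 z.2
    rw [hasFiniteIntegral_iff_ofReal h00,
      lintegral_prod _ hF.ennreal_ofReal.aemeasurable, lintegral_congr_ae hG]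
    exact hfin
  have hIF : Integrable (fun z : α × β => f z.1 * F z.1 z.2) (μ.prod ν) :=
    Integrable.bdd_mul (c := C) hI (hf.comp measurable_fst).aestronglyMeasurable
      (Eventually.of_forall fun z => hC _)
  have h1 := integral_integral_swap (μ := μ) (ν := ν)
    (f := fun (a : α) (b : β) => f a * F a b) hIF
  rw [← h1]
  refine integral_congr_ae ?_
  filter_upwards [hG] with a ha
  rw [integral_const_mul]
  congr 1
  have hmu : Measurable fun b : β => F a b := hF.comp (measurable_const.prodMk measurable_id)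
  rw [integral_eq_lintegral_of_nonneg_ae (Eventually.of_forall fun b => h0 a b)
    hmu.aestronglyMeasurable, ha, ENNReal.toReal_ofReal (hG0 a)]

theorem XM_step {n m : ℕ} (hm : m < n) {p : ℝ} (hp : 0 < p) (f : C(S2, ℝ)) :
    ∀ᵐ w ∂PP n m, ∫ e, XM n p (m + 1) f (sn (w, e)) ∂gE n = XM n p m f w := by
  filter_upwards [ae_ae_PQ m hm.le, ae_Ym_fin hp m hm.le] with w hw hf
  have h := gen_swap nu (gE n) (fun (u : S2) (e : E n) => NM n p (m + 1) u (sn (w, e)))
    (meas_NMsn p w) (fun u e => NM_nonneg hm hp u _) (fun u => NM n p m u w)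
    (by filter_upwards [hw] with u hu; exact lint_one hm hp hu)
    (fun u => NM_nonneg hm.le hp u w) hf f f.continuous.measurable ‖f‖ f.norm_coe_le_norm
  exact h

/-- restriction to the first rows -/
def rs' {n m k : ℕ} (h : m ≤ k) (w : Fin k → E n) : Fin m → E n := fun i => w (Fin.castLE h i)

theorem rs_sn {n m k : ℕ} (h : m ≤ k) (w : Fin k → E n) (e : E n) :
    rs' (h.trans (Nat.le_succ k)) (sn (w, e)) = rs' h w := by
  funext i
  unfold rs' sn
  have : Fin.castLE (h.trans (Nat.le_succ k)) i = (Fin.castLE h i).castSucc := rfl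
  rw [this, Fin.snoc_castSucc]

theorem mp_rs {n m k : ℕ} (h : m ≤ k) : MeasurePreserving (rs' (n := n) h) (PP n k) (PP n m) := by
  induction k, h using Nat.le_induction with
  | base => exact MeasurePreserving.id _
  | succ k h ih =>
    have hmeas : Measurable (rs' (n := n) (h.trans (Nat.le_succ k))) :=
      measurable_pi_lambda _ fun i => measurable_pi_apply _
    refine ⟨hmeas, ?_⟩
    rw [← (mp_sn n k).map_eq, Measure.map_map hmeas (mp_sn n k).measurable]
    have e : (rs' (n := n) (h.trans (Nat.le_succ k))) ∘ sn = (rs' (n := n) h) ∘ Prod.fst := by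
      funext x
      exact rs_sn h x.1 x.2
    rw [e]
    exact (ih.comp measurePreserving_fst).map_eq

theorem XM_cross {n m : ℕ} {p : ℝ} (hp : 0 < p) (f : C(S2, ℝ)) (k : ℕ) (h : m ≤ k) (hk : k ≤ n) :
    Integrable (fun w : Fin k → E n => XM n p k f w * XM n p m f (rs' h w)) (PP n k) ∧
    ∫ w : Fin k → E n, XM n p k f w * XM n p m f (rs' h w) ∂PP n k =
      ∫ w, XM n p m f w ^ 2 ∂PP n m := by
  have hmn : m ≤ n := h.trans hk
  have hint : ∀ (k : ℕ) (h : m ≤ k) (hk : k ≤ n),
      Integrable (fun w : Fin k → E n => XM n p k f w * XM n p m f (rs' h w)) (PP n k) := by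
    intro k h hk
    have h1 := XM_sq_int hp f k hk
    have h2 := XM_sq_int hp f m hmn
    have hR := mp_rs (n := n) h
    have h3 : Integrable (fun w : Fin k → E n => XM n p m f (rs' h w) ^ 2) (PP n k) :=
      (hR.integrable_comp h2.aestronglyMeasurable).2 h2
    refine (h1.add h3).mono' (((meas_XM n p k f).mul
      ((meas_XM n p m f).comp_measurable hR.measurable)).aestronglyMeasurable)
      (Eventually.of_forall fun w => ?_)
    rw [Real.norm_eq_abs, abs_le]
    simp only [Pi.add_apply]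
    constructor <;> nlinarith [sq_nonneg (XM n p k f w + XM n p m f (rs' h w)),
      sq_nonneg (XM n p k f w - XM n p m f (rs' h w))]
  refine ⟨hint k h hk, ?_⟩
  induction k, h using Nat.le_induction with
  | base =>
    refine integral_congr_ae (Eventually.of_forall fun w => ?_)
    simp only
    rw [sq]
    rfl
  | succ k h ih =>
    rw [(int_sn (hint (k + 1) (h.trans (Nat.le_succ k)) hk)).2, ← ih (by omega)]
    refine integral_congr_ae ?_
    filter_upwards [XM_step (by omega : k < n) hp f] with w hw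
    simp_rw [rs_sn h w]
    rw [integral_mul_const, hw]

theorem s_MART : S_MART := by
  intro n p hp _ f m hm
  refine ⟨XM_sq_int hp f m hm, ?_⟩
  have h1 := XM_sq_int hp f n le_rfl
  have h2 := XM_sq_int hp f m hm
  have hR := mp_rs (n := n) hm
  have h3 : Integrable (fun w : Fin n → E n => XM n p m f (rs' hm w) ^ 2) (PP n n) :=
    (hR.integrable_comp h2.aestronglyMeasurable).2 h2
  obtain ⟨c1, c2⟩ := XM_cross hp f n hm le_rfl
  have e1 : ∫ w : Fin n → E n, XM n p m f (rs' hm w) ^ 2 ∂PP n n =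
      ∫ w, XM n p m f w ^ 2 ∂PP n m := by
    have h4 := integral_map (μ := PP n n) hR.measurable.aemeasurable
      (f := fun w => XM n p m f w ^ 2) (by rw [hR.map_eq]; exact h2.aestronglyMeasurable)
    rw [hR.map_eq] at h4
    exact h4.symm
  have e2 : ∀ w : Fin n → E n, (XM n p n f w - XM n p m f (fun i => w (Fin.castLE hm i))) ^ 2 =
      (XM n p n f w ^ 2 - 2 * (XM n p n f w * XM n p m f (rs' hm w))) +
        XM n p m f (rs' hm w) ^ 2 := by
    intro w
    have : (fun i => w (Fin.castLE hm i)) = rs' hm w := rfl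
    rw [this]
    ring
  simp_rw [e2]
  have c3 : Integrable (fun w : Fin n → E n =>
      2 * (XM n p n f w * XM n p m f (rs' hm w))) (PP n n) := c1.const_mul 2
  have c4 : Integrable (fun w : Fin n → E n => XM n p n f w ^ 2 -
      2 * (XM n p n f w * XM n p m f (rs' hm w))) (PP n n) := h1.sub c3
  rw [integral_add c4 h3, integral_sub h1 c3, integral_const_mul, c2, e1]
  ring

end

end Pool.Agent.K7.H98.GM2
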