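import Mathlib

/-!
S_TWOPT (MP_55470d_pr): the growth of a ratio of Gamma products.
-/

set_option autoImplicit false

open Filter Topology

namespace Pool.Agent.K7.H98.GMC

theorem factor_le {x p : ℝ} (hx : 0 < x) (hp : 0 ≤ p) (j : ℕ) :
    (x + p + j) ^ 2 / ((x + 2 * p + j) * (x + j)) ≤ Real.exp (p ^ 2 / (x + j) ^ 2) := by
  have hj : (0 : ℝ) ≤ j := Nat.cast_nonneg j
  have h1 : 0 < x + j := by positivity
  have h2 : 0 < x + 2 * p + j := by positivity
  have h3 : (x + p + j) ^ 2 / ((x + 2 * p + j) * (x + j)) = 1 + p ^ 2 / ((x + 2 * p + j) * (x + j)) := by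
    field_simp
    ring
  rw [h3]
  have h4 : p ^ 2 / ((x + 2 * p + j) * (x + j)) ≤ p ^ 2 / (x + j) ^ 2 := by
    apply div_le_div_of_nonneg_left (sq_nonneg p) (by positivity)
    nlinarith
  have h5 := Real.add_one_le_exp (p ^ 2 / (x + j) ^ 2)
  linarith

theorem sum_inv_sq_le {x : ℝ} (hx : 0 < x) (n : ℕ) :
    ∑ j ∈ Finset.range (n + 1), 1 / (x + j) ^ 2 ≤ 1 / x ^ 2 + 1 / x - 1 / (x + n) := by
  induction n with
  | zero => simp
  | succ n ih =>
    rw [Finset.sum_range_succ]
    have hn : (0 : ℝ) ≤ n := Nat.cast_nonneg n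
    have h1 : 0 < x + n := by positivity
    have h2 : 1 / (x + ((n + 1 : ℕ) : ℝ)) ^ 2 ≤ 1 / (x + n) - 1 / (x + ((n + 1 : ℕ) : ℝ)) := by
      push_cast
      rw [div_sub_div _ _ h1.ne' (by positivity), div_le_div_iff₀ (by positivity) (by positivity)]
      nlinarith
    linarith

/-- the bound of the ratio of Gamma values -/
theorem gamma_ratio_le {x p : ℝ} (hx : 0 < x) (hp : 0 ≤ p) :
    Real.Gamma (x + 2 * p) * Real.Gamma x / Real.Gamma (x + p) ^ 2 ≤
      Real.exp (p ^ 2 * (1 / x ^ 2 + 1 / x)) := by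
  have h1 := Real.GammaSeq_tendsto_Gamma (x + 2 * p)
  have h2 := Real.GammaSeq_tendsto_Gamma x
  have h3 := Real.GammaSeq_tendsto_Gamma (x + p)
  have hG : Real.Gamma (x + p) ^ 2 ≠ 0 := by
    have := Real.Gamma_pos_of_pos (show 0 < x + p by linarith)
    positivity
  have h4 := (h1.mul h2).div (h3.pow 2) hG
  refine le_of_tendsto h4 ?_
  filter_upwards [eventually_ge_atTop 1] with n hn
  have hn0 : (0 : ℝ) < n := by exact_mod_cast hn
  have hprod : ∀ y : ℝ, 0 < y → 0 < ∏ j ∈ Finset.range (n + 1), (y + j) := by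
    intro y hy
    apply Finset.prod_pos
    intro j _
    positivity
  have ha := hprod (x + 2 * p) (by linarith)
  have hb := hprod x hx
  have hc := hprod (x + p) (by linarith)
  have hf : (0 : ℝ) < n.factorial := by exact_mod_cast n.factorial_pos
  have e1 : (n : ℝ) ^ (x + 2 * p) * (n : ℝ) ^ x = ((n : ℝ) ^ (x + p)) ^ 2 := by
    rw [← Real.rpow_add hn0, ← Real.rpow_natCast, ← Real.rpow_mul hn0.le]
    congr 1
    push_cast
    ring
  have hnp : 0 < (n : ℝ) ^ (x + p) := Real.rpow_pos_of_pos hn0 _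
  have e2 : Real.GammaSeq (x + 2 * p) n * Real.GammaSeq x n / Real.GammaSeq (x + p) n ^ 2 =
      ∏ j ∈ Finset.range (n + 1), (x + p + j) ^ 2 / ((x + 2 * p + j) * (x + j)) := by
    unfold Real.GammaSeq
    rw [Finset.prod_div_distrib, Finset.prod_mul_distrib, Finset.prod_pow]
    have : (n : ℝ) ^ (x + 2 * p) * (n.factorial : ℝ) / (∏ j ∈ Finset.range (n + 1), (x + 2 * p + (j : ℝ))) *
        ((n : ℝ) ^ x * (n.factorial : ℝ) / ∏ j ∈ Finset.range (n + 1), (x + (j : ℝ))) =
        ((n : ℝ) ^ (x + 2 * p) * (n : ℝ) ^ x) * (n.factorial : ℝ) ^ 2 /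
        ((∏ j ∈ Finset.range (n + 1), (x + 2 * p + (j : ℝ))) *
          ∏ j ∈ Finset.range (n + 1), (x + (j : ℝ))) := by
      field_simp
    rw [this, e1]
    field_simp
  show Real.GammaSeq (x + 2 * p) n * Real.GammaSeq x n / Real.GammaSeq (x + p) n ^ 2 ≤ _
  rw [e2]
  calc ∏ j ∈ Finset.range (n + 1), (x + p + j) ^ 2 / ((x + 2 * p + j) * (x + j))
      ≤ ∏ j ∈ Finset.range (n + 1), Real.exp (p ^ 2 / (x + j) ^ 2) := by
        apply Finset.prod_le_prod
        · intro j _
          positivity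
        · intro j _
          exact factor_le hx hp j
    _ = Real.exp (∑ j ∈ Finset.range (n + 1), p ^ 2 / (x + j) ^ 2) := by
        rw [Real.exp_sum]
    _ ≤ Real.exp (p ^ 2 * (1 / x ^ 2 + 1 / x)) := by
        apply Real.exp_le_exp.2
        have : ∑ j ∈ Finset.range (n + 1), p ^ 2 / (x + j) ^ 2 =
            p ^ 2 * ∑ j ∈ Finset.range (n + 1), 1 / (x + j) ^ 2 := by
          rw [Finset.mul_sum]
          apply Finset.sum_congr rfl
          intro j _
          rw [mul_one_div]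
        rw [this]
        apply mul_le_mul_of_nonneg_left _ (sq_nonneg p)
        have h5 := sum_inv_sq_le hx n
        have h6 : 0 ≤ 1 / (x + n) := by positivity
        linarith

/-- the product of Gamma ratios -/
noncomputable def NR (n : ℕ) (a : ℝ) : ℝ :=
  ∏ j ∈ Finset.range n, Real.Gamma ((j : ℝ) + 1 + a) / Real.Gamma ((j : ℝ) + 1)

theorem NR_pos (n : ℕ) {a : ℝ} (ha : -1 < a) : 0 < NR n a := by
  unfold NR
  apply Finset.prod_pos
  intro j _
  have hj : (0 : ℝ) ≤ j := Nat.cast_nonneg j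
  exact div_pos (Real.Gamma_pos_of_pos (by linarith)) (Real.Gamma_pos_of_pos (by linarith))

theorem NR_ratio_le (n : ℕ) (hn : 1 ≤ n) {p : ℝ} (hp : 0 ≤ p) :
    NR n (2 * p) / NR n p ^ 2 ≤ Real.exp (3 * p ^ 2) * (n : ℝ) ^ (p ^ 2) := by
  have hn0 : (0 : ℝ) < n := by exact_mod_cast hn
  have h1 : NR n (2 * p) / NR n p ^ 2 = ∏ j ∈ Finset.range n,
      (Real.Gamma ((j : ℝ) + 1 + 2 * p) * Real.Gamma ((j : ℝ) + 1) /
        Real.Gamma ((j : ℝ) + 1 + p) ^ 2) := by
    unfold NR
    rw [← Finset.prod_pow, ← Finset.prod_div_distrib]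
    apply Finset.prod_congr rfl
    intro j _
    have hj : (0 : ℝ) ≤ j := Nat.cast_nonneg j
    have h2 : Real.Gamma ((j : ℝ) + 1) ≠ 0 := (Real.Gamma_pos_of_pos (by linarith)).ne'
    have h3 : Real.Gamma ((j : ℝ) + 1 + p) ≠ 0 := (Real.Gamma_pos_of_pos (by linarith)).ne'
    field_simp
  rw [h1]
  calc ∏ j ∈ Finset.range n, (Real.Gamma ((j : ℝ) + 1 + 2 * p) * Real.Gamma ((j : ℝ) + 1) /
        Real.Gamma ((j : ℝ) + 1 + p) ^ 2)
      ≤ ∏ j ∈ Finset.range n, Real.exp (p ^ 2 * (1 / ((j : ℝ) + 1) ^ 2 + 1 / ((j : ℝ) + 1))) := by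
        apply Finset.prod_le_prod
        · intro j _
          have hj : (0 : ℝ) ≤ j := Nat.cast_nonneg j
          have h2 := Real.Gamma_pos_of_pos (show 0 < (j : ℝ) + 1 by linarith)
          have h3 := Real.Gamma_pos_of_pos (show 0 < (j : ℝ) + 1 + p by linarith)
          have h4 := Real.Gamma_pos_of_pos (show 0 < (j : ℝ) + 1 + 2 * p by linarith)
          positivity
        · intro j _
          have hj : (0 : ℝ) ≤ j := Nat.cast_nonneg j
          exact gamma_ratio_le (by linarith) hp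
    _ = Real.exp (p ^ 2 * (∑ j ∈ Finset.range n, 1 / ((j : ℝ) + 1) ^ 2 +
          ∑ j ∈ Finset.range n, 1 / ((j : ℝ) + 1))) := by
        rw [← Real.exp_sum, ← Finset.sum_add_distrib, Finset.mul_sum]
    _ ≤ Real.exp (p ^ 2 * (2 + (1 + Real.log n))) := by
        apply Real.exp_le_exp.2
        apply mul_le_mul_of_nonneg_left _ (sq_nonneg p)
        apply add_le_add
        · obtain ⟨m, rfl⟩ : ∃ m, n = m + 1 := ⟨n - 1, by omega⟩
          have h5 := sum_inv_sq_le one_pos m
          have h6 : (0 : ℝ) ≤ 1 / (1 + m) := by positivity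
          have h7 : ∑ j ∈ Finset.range (m + 1), 1 / ((j : ℝ) + 1) ^ 2 =
              ∑ j ∈ Finset.range (m + 1), 1 / (1 + (j : ℝ)) ^ 2 := by
            apply Finset.sum_congr rfl
            intro j _
            rw [add_comm]
          rw [h7]
          have h8 : (1 : ℝ) / 1 ^ 2 + 1 / 1 = 2 := by norm_num
          linarith
        · have h8 := harmonic_le_one_add_log n
          have h9 : ((harmonic n : ℚ) : ℝ) = ∑ j ∈ Finset.range n, 1 / ((j : ℝ) + 1) := by
            unfold harmonic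
            push_cast
            apply Finset.sum_congr rfl
            intro j _
            rw [one_div]
          rw [h9] at h8
          exact h8
    _ = Real.exp (3 * p ^ 2) * (n : ℝ) ^ (p ^ 2) := by
        rw [Real.rpow_def_of_pos hn0, ← Real.exp_add]
        congr 1
        ring

theorem NR_ratio_tendsto {p : ℝ} (hp : 0 ≤ p) (hp1 : p < 1) :
    Tendsto (fun n : ℕ => NR n (2 * p) / NR n p ^ 2 * (1 / ((n : ℝ) + 2))) atTop (𝓝 0) := by
  have hp2 : 0 < 1 - p ^ 2 := by nlinarith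
  have h1 : Tendsto (fun n : ℕ => Real.exp (3 * p ^ 2) * ((n : ℝ) ^ (-(1 - p ^ 2)))) atTop (𝓝 0) := by
    have := ((tendsto_rpow_neg_atTop hp2).comp tendsto_natCast_atTop_atTop).const_mul
      (Real.exp (3 * p ^ 2))
    rw [mul_zero] at this
    exact this
  refine squeeze_zero' ?_ ?_ h1
  · apply Eventually.of_forall
    intro n
    have h2 := NR_pos n (a := 2 * p) (by linarith)
    positivity
  · filter_upwards [eventually_ge_atTop 1] with n hn
    have hn0 : (0 : ℝ) < n := by exact_mod_cast hn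
    calc NR n (2 * p) / NR n p ^ 2 * (1 / ((n : ℝ) + 2))
        ≤ (Real.exp (3 * p ^ 2) * (n : ℝ) ^ (p ^ 2)) * (1 / (n : ℝ)) := by
          apply mul_le_mul (NR_ratio_le n hn hp) _ (by positivity) (by positivity)
          apply one_div_le_one_div_of_le hn0
          linarith
      _ = Real.exp (3 * p ^ 2) * ((n : ℝ) ^ (-(1 - p ^ 2))) := by
          rw [mul_assoc]
          congr 1
          rw [show -(1 - p ^ 2) = p ^ 2 - 1 by ring, Real.rpow_sub_one hn0.ne', mul_one_div]

end Pool.Agent.K7.H98.GMC
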