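import Mathlib

/-!
S_TWOPT (MP_55470d_pr): binomial series with real exponent and Cauchy products.
-/

set_option autoImplicit false

open Filter Topology

namespace Pool.Agent.K7.H98.GMC

/-- the coefficient `(x)_k / k!` -/
noncomputable def mc (x : ℝ) (k : ℕ) : ℝ := Ring.choose (x + k - 1) k

theorem mc_eq (x : ℝ) (k : ℕ) : mc x k = (ascPochhammer ℝ k).eval x / k.factorial := by
  unfold mc
  have hk : (k.factorial : ℝ) ≠ 0 := by exact_mod_cast k.factorial_ne_zero
  rw [← Ring.multichoose_eq, eq_div_iff hk, mul_comm, ← nsmul_eq_mul,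
    Ring.factorial_nsmul_multichoose_eq_ascPochhammer]
  exact Polynomial.ascPochhammer_smeval_eq_eval x k

theorem mc_eq_neg (x : ℝ) (k : ℕ) : mc x k = (-1) ^ k * Ring.choose (-x) k := by
  unfold mc
  rw [Ring.choose_neg, Units.smul_def, Int.negOnePow_def, zsmul_eq_mul, ← mul_assoc]
  have : ((-1 : ℝ)) ^ k * (((((-1 : ℤˣ) ^ (k : ℤ)) : ℤˣ) : ℤ) : ℝ) = 1 := by
    rw [zpow_natCast]
    push_cast
    rw [← mul_pow]
    norm_num
  rw [this, one_mul]

theorem mc_nonneg {x : ℝ} (hx : 0 ≤ x) (k : ℕ) : 0 ≤ mc x k := by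
  rw [mc_eq]
  have h : ∀ k : ℕ, 0 ≤ (ascPochhammer ℝ k).eval x := by
    intro k
    induction k with
    | zero => simp
    | succ k ih =>
      rw [ascPochhammer_succ_eval]
      positivity
  exact div_nonneg (h k) (Nat.cast_nonneg _)

theorem vandermonde (x y : ℝ) (k : ℕ) :
    ∑ ij ∈ Finset.HasAntidiagonal.antidiagonal k, mc x ij.1 * mc y ij.2 = mc (x + y) k := by
  rw [mc_eq_neg, neg_add, Ring.add_choose_eq k (Commute.all _ _), Finset.mul_sum]
  apply Finset.sum_congr rfl
  intro ij hij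
  rw [Finset.HasAntidiagonal.mem_antidiagonal] at hij
  rw [mc_eq_neg, mc_eq_neg, ← hij, pow_add]
  ring

theorem hasSum_mc (x : ℝ) {r : ℝ} (h0 : 0 ≤ r) (h1 : r < 1) :
    HasSum (fun k => mc x k * r ^ k) ((1 - r) ^ (-x)) := by
  have h := (Real.one_div_one_sub_rpow_hasFPowerSeriesOnBall_zero x).hasSum_sub (y := r) (by
    rw [Metric.mem_eball, edist_zero_right, ← ofReal_norm, Real.norm_of_nonneg h0]
    exact ENNReal.ofReal_lt_one.2 h1)
  have h2 : (1 - r) ^ (-x) = 1 / (1 - r) ^ x := by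
    rw [Real.rpow_neg (by linarith), one_div]
  rw [h2]
  refine h.congr_fun ?_
  intro k
  simp [mc]
  ring

/-- the Cauchy product of two real power series -/
theorem hasSum_cauchy {a b : ℕ → ℝ} {r A B : ℝ} (ha : HasSum (fun k => a k * r ^ k) A)
    (hb : HasSum (fun k => b k * r ^ k) B) :
    HasSum (fun k => (∑ ij ∈ Finset.HasAntidiagonal.antidiagonal k, a ij.1 * b ij.2) * r ^ k) (A * B) := by
  have ha' := ha.summable.norm
  have hb' := hb.summable.norm
  have h1 := summable_norm_sum_mul_antidiagonal_of_summable_norm ha' hb'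
  have h2 := tsum_mul_tsum_eq_tsum_sum_antidiagonal_of_summable_norm ha' hb'
  rw [ha.tsum_eq, hb.tsum_eq] at h2
  rw [h2]
  refine h1.of_norm.hasSum.congr_fun ?_
  intro k
  rw [Finset.sum_mul]
  apply Finset.sum_congr rfl
  intro ij hij
  rw [Finset.HasAntidiagonal.mem_antidiagonal] at hij
  rw [← hij, pow_add]
  ring

end Pool.Agent.K7.H98.GMC
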