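import Pool.Agent.R923.SE.Hol
import Pool.Agent.R923.SE.PD
import Pool.Agent.R923.SE.Base
import Pool.Agent.R923.SE.N
import Pool.Agent.K7.H98.GMC.T1

/-!
S_TWOPT (MP_55470d_pr): positive definiteness of the two point function for real exponents.
-/

set_option autoImplicit false

open MeasureTheory Complex Filter Topology
open scoped ENNReal

namespace Pool.Agent.K7.H98.GMC

open Pool.Agent.R923.SE

noncomputable section

/-- `|det A|^{2p}` -/
def fr {n : ℕ} (p : ℝ) (A : Mt n n) : ℝ := Real.exp (2 * p * Real.log ‖dt A‖)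

theorem fr_pos {n : ℕ} (p : ℝ) (A : Mt n n) : 0 < fr p A := Real.exp_pos _

theorem fp_eq_fr {n : ℕ} (p : ℝ) (A : Mt n n) : fp (p : ℂ) A = ((fr p A : ℝ) : ℂ) :=
  hol_fp_real p A

theorem measurable_fr (n : ℕ) (p : ℝ) : Measurable (fr p : Mt n n → ℝ) := by
  unfold fr
  exact Real.measurable_exp.comp ((hol_measurable_log n).const_mul _)

theorem fr_sq {n : ℕ} (p : ℝ) (A : Mt n n) : fr p A ^ 2 = fr (2 * p) A := by
  unfold fr
  rw [← Real.exp_nat_mul]
  congr 1
  push_cast
  ring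

/-- `ENNReal` version -/
def fE {n : ℕ} (p : ℝ) (A : Mt n n) : ℝ≥0∞ := ENNReal.ofReal (fr p A)

theorem measurable_fE (n : ℕ) (p : ℝ) : Measurable (fE p : Mt n n → ℝ≥0∞) :=
  (measurable_fr n p).ennreal_ofReal

/-- the linear combination -/
def lc {n : ℕ} (a b : ℝ) (X Y : Mt n n) : Mt n n := ((a : ℝ) : ℂ) • X + ((b : ℝ) : ℂ) • Y

theorem measurable_lc {n : ℕ} (a b : ℝ) : Measurable fun x : Mt n n × Mt n n => lc a b x.1 x.2 := by
  have h : Continuous fun x : Mt n n × Mt n n => lc a b x.1 x.2 := by unfold lc; fun_prop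
  exact h.measurable

theorem measurable_lc' {n : ℕ} (a b : ℝ) : Measurable fun x : Mt n n × Mt n n => lc a b x.2 x.1 := by
  have h : Continuous fun x : Mt n n × Mt n n => lc a b x.2 x.1 := by unfold lc; fun_prop
  exact h.measurable

theorem measurable_lc_right {n : ℕ} (a b : ℝ) (X : Mt n n) : Measurable fun Y : Mt n n => lc a b X Y := by
  have h : Continuous fun Y : Mt n n => lc a b X Y := by unfold lc; fun_prop
  exact h.measurable

/-- rotations of two independent Gaussian matrices -/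
theorem rot {n : ℕ} (u v : ℝ) (huv : u ^ 2 + v ^ 2 = 1) :
    MeasurePreserving (fun x : Mt n n × Mt n n => (lc u v x.1 x.2, lc (-v) u x.1 x.2))
      ((gau n n).prod (gau n n)) ((gau n n).prod (gau n n)) := by
  have hT := s_ROT n n (u : ℂ) (v : ℂ) ((-v : ℝ) : ℂ) (u : ℂ)
    (by rw [Complex.norm_real, Complex.norm_real, Real.norm_eq_abs, Real.norm_eq_abs, sq_abs,
          sq_abs]; exact huv)
    (by rw [Complex.norm_real, Complex.norm_real, Real.norm_eq_abs, Real.norm_eq_abs,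
          sq_abs, sq_abs, neg_sq]; linarith)
    (by rw [Complex.conj_ofReal, Complex.conj_ofReal]; push_cast; ring)
  exact hT

theorem comb {n : ℕ} (u v : ℝ) (huv : u ^ 2 + v ^ 2 = 1) :
    MeasurePreserving (fun x : Mt n n × Mt n n => lc u v x.1 x.2)
      ((gau n n).prod (gau n n)) (gau n n) :=
  (measurePreserving_fst (μ := gau n n) (ν := gau n n)).comp (rot u v huv)

/-- conditional mean -/
def gE {n : ℕ} (p a : ℝ) (D : Mt n n) : ℝ≥0∞ := ∫⁻ A, fE p (lc (√a) (√(1 - a)) D A) ∂gau n n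

theorem measurable_gE (n : ℕ) (p a : ℝ) : Measurable (gE p a : Mt n n → ℝ≥0∞) :=
  ((measurable_fE n p).comp (measurable_lc _ _)).lintegral_prod_right'

/-- two point function, as a lower integral -/
def FE (n : ℕ) (p s : ℝ) : ℝ≥0∞ := ∫⁻ x : Mt n n × Mt n n, fE p (CC n s x) * fE p x.2 ∂gg n

theorem inner_avg {n : ℕ} (p a b : ℝ) (ha0 : 0 ≤ a) (ha : a < 1) (hb0 : 0 ≤ b) (hb : b < 1)
    (D : Mt n n) :
    ∫⁻ E, gE p a (lc (√b) (-√(1 - b)) D E) ∂gau n n = gE p (a * b) D := by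
  have hab : a * b < 1 := by nlinarith
  have hab' : (0 : ℝ) < √(1 - a * b) := Real.sqrt_pos.2 (by linarith)
  set u : ℝ := -(√a * √(1 - b)) / √(1 - a * b) with hu
  set v : ℝ := √(1 - a) / √(1 - a * b) with hv
  have sa : √a ^ 2 = a := Real.sq_sqrt ha0
  have sa1 : √(1 - a) ^ 2 = 1 - a := Real.sq_sqrt (by linarith)
  have sb1 : √(1 - b) ^ 2 = 1 - b := Real.sq_sqrt (by linarith)
  have sab : √(1 - a * b) ^ 2 = 1 - a * b := Real.sq_sqrt (by linarith)
  have huv : u ^ 2 + v ^ 2 = 1 := by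
    rw [hu, hv, div_pow, div_pow, ← add_div, neg_sq, mul_pow, sa, sa1, sb1, sab]
    rw [div_eq_one_iff_eq (by linarith)]
    ring
  have hU := comb (n := n) u v huv
  have hm1 : Measurable fun A : Mt n n => fE p (lc (√(a * b)) (√(1 - a * b)) D A) :=
    (measurable_fE n p).comp (measurable_lc_right _ _ D)
  have e1 : gE p (a * b) D = ∫⁻ x : Mt n n × Mt n n,
      fE p (lc (√(a * b)) (√(1 - a * b)) D (lc u v x.1 x.2)) ∂(gau n n).prod (gau n n) := by
    unfold gE
    exact (hU.lintegral_comp hm1).symm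
  have hm1' : Measurable fun x : Mt n n × Mt n n =>
      fE p (lc (√(a * b)) (√(1 - a * b)) D (lc u v x.1 x.2)) := hm1.comp hU.measurable
  rw [e1, lintegral_prod _ hm1'.aemeasurable]
  refine lintegral_congr fun E => ?_
  unfold gE
  refine lintegral_congr fun A => ?_
  congr 1
  funext i j
  simp only [lc, Pi.add_apply, Pi.smul_apply, smul_eq_mul]
  have e2 : √(a * b) = √a * √b := Real.sqrt_mul ha0 b
  have e3 : ((√(1 - a * b) : ℝ) : ℂ) * (u : ℂ) = -(((√a : ℝ) : ℂ) * ((√(1 - b) : ℝ) : ℂ)) := by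
    rw [← Complex.ofReal_mul, hu, mul_div_cancel₀ _ hab'.ne']
    push_cast
    ring
  have e4 : ((√(1 - a * b) : ℝ) : ℂ) * (v : ℂ) = ((√(1 - a) : ℝ) : ℂ) := by
    rw [← Complex.ofReal_mul, hv, mul_div_cancel₀ _ hab'.ne']
  rw [e2]
  push_cast
  linear_combination (-(E i j)) * e3 - (A i j) * e4

/-- the two point function as a scalar product -/
theorem key {n : ℕ} (p a b : ℝ) (ha0 : 0 ≤ a) (ha : a < 1) (hb0 : 0 ≤ b) (hb : b < 1) :
    ∫⁻ D : Mt n n, gE p a D * gE p b D ∂gau n n = FE n p (a * b) := by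
  have sb : √b ^ 2 = b := Real.sq_sqrt hb0
  have sb1 : √(1 - b) ^ 2 = 1 - b := Real.sq_sqrt (by linarith)
  have hmf := measurable_fE n p
  have hmg := measurable_gE n p a
  -- step 1
  have k1 : ∫⁻ D : Mt n n, gE p a D * gE p b D ∂gau n n =
      ∫⁻ x : Mt n n × Mt n n, gE p a x.1 * fE p (lc (√b) (√(1 - b)) x.1 x.2)
        ∂(gau n n).prod (gau n n) := by
    have hm2 : Measurable fun x : Mt n n × Mt n n =>
      gE p a x.1 * fE p (lc (√b) (√(1 - b)) x.1 x.2) :=
      (hmg.comp measurable_fst).mul (hmf.comp (measurable_lc _ _))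
    rw [lintegral_prod _ hm2.aemeasurable]
    refine lintegral_congr fun D => ?_
    simp only
    have hm3 : Measurable fun y : Mt n n => fE p (lc (√b) (√(1 - b)) D y) :=
      hmf.comp (measurable_lc_right _ _ D)
    rw [lintegral_const_mul _ hm3]
    rfl
  -- step 2
  have hT := rot (n := n) (√b) (-√(1 - b)) (by rw [neg_sq, sb, sb1]; ring)
  have hm2 : Measurable fun x : Mt n n × Mt n n =>
      gE p a x.1 * fE p (lc (√b) (√(1 - b)) x.1 x.2) :=
    (hmg.comp measurable_fst).mul (hmf.comp (measurable_lc _ _))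
  have k2 : ∫⁻ x : Mt n n × Mt n n, gE p a x.1 * fE p (lc (√b) (√(1 - b)) x.1 x.2)
        ∂(gau n n).prod (gau n n) =
      ∫⁻ x : Mt n n × Mt n n, gE p a (lc (√b) (-√(1 - b)) x.1 x.2) * fE p x.1
        ∂(gau n n).prod (gau n n) := by
    rw [← hT.lintegral_comp hm2]
    refine lintegral_congr fun x => ?_
    simp only
    congr 2
    funext i j
    simp only [lc, Pi.add_apply, Pi.smul_apply, smul_eq_mul, neg_neg]
    have sbc : ((√b : ℝ) : ℂ) ^ 2 = b := by exact_mod_cast congrArg (fun x : ℝ => (x : ℂ)) sb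
    have sb1c : ((√(1 - b) : ℝ) : ℂ) ^ 2 = 1 - b := by
      have := congrArg (fun x : ℝ => (x : ℂ)) sb1
      simpa using this
    push_cast
    linear_combination (x.1 i j) * sbc + (x.1 i j) * sb1c
  -- step 3
  have k3 : ∫⁻ x : Mt n n × Mt n n, gE p a (lc (√b) (-√(1 - b)) x.1 x.2) * fE p x.1
        ∂(gau n n).prod (gau n n) = ∫⁻ D : Mt n n, gE p (a * b) D * fE p D ∂gau n n := by
    have hm3 : Measurable fun x : Mt n n × Mt n n =>
      gE p a (lc (√b) (-√(1 - b)) x.1 x.2) * fE p x.1 :=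
      (hmg.comp (measurable_lc _ _)).mul (hmf.comp measurable_fst)
    rw [lintegral_prod _ hm3.aemeasurable]
    refine lintegral_congr fun D => ?_
    simp only
    have hm4 : Measurable fun y : Mt n n => gE p a (lc (√b) (-√(1 - b)) D y) :=
      hmg.comp (measurable_lc_right _ _ D)
    rw [lintegral_mul_const _ hm4, inner_avg p a b ha0 ha hb0 hb D]
  rw [k1, k2, k3]
  unfold FE gg
  have hm4 : Measurable fun x : Mt n n × Mt n n => fE p (CC n (a * b) x) * fE p x.2 :=
    (hmf.comp (measurable_lc' _ _)).mul (hmf.comp measurable_snd)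
  rw [lintegral_prod_symm _ hm4.aemeasurable]
  refine lintegral_congr fun D => ?_
  simp only
  rw [lintegral_mul_const _ ?_]
  · rfl
  · exact hmf.comp (measurable_lc_right _ _ D)

/-- moments -/
theorem moment (n : ℕ) (p : ℝ) (hp : -1 < p) :
    ∫⁻ A : Mt n n, fE p A ∂gau n n = ENNReal.ofReal (NR n p) := by
  obtain ⟨h1, h2⟩ := hol_int_real (s_N s_DEN s_UR) n p hp
  unfold fE
  have h3 : ∫ A : Mt n n, fr p A ∂gau n n = NR n p := h2
  rw [← h3, ofReal_integral_eq_lintegral_ofReal]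
  · exact h1
  · exact Eventually.of_forall fun A => (fr_pos p A).le

theorem FE_le (n : ℕ) (p s : ℝ) (hp : 0 ≤ p) (h0 : 0 ≤ s) (h1 : s ≤ 1) :
    FE n p s ≤ ENNReal.ofReal (NR n (2 * p)) := by
  have hC := hol_mp s_ROT n s h0 h1
  have hS : MeasurePreserving (Prod.snd : Mt n n × Mt n n → Mt n n) (gg n) (gau n n) := by
    unfold gg
    exact measurePreserving_snd
  have hm := measurable_fE n (2 * p)
  have hle : ∀ x : Mt n n × Mt n n, fE p (CC n s x) * fE p x.2 ≤
      (fE (2 * p) (CC n s x) + fE (2 * p) x.2) * 2⁻¹ := by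
    intro x
    unfold fE
    rw [← ENNReal.ofReal_mul (fr_pos _ _).le, ← ENNReal.ofReal_add (fr_pos _ _).le (fr_pos _ _).le,
      ← fr_sq, ← fr_sq]
    have h2 : (2 : ℝ≥0∞)⁻¹ = ENNReal.ofReal (1 / 2) := by
      rw [one_div, ENNReal.ofReal_inv_of_pos two_pos, ENNReal.ofReal_ofNat]
    rw [h2, ← ENNReal.ofReal_mul (by positivity)]
    apply ENNReal.ofReal_le_ofReal
    nlinarith [sq_nonneg (fr p (CC n s x) - fr p x.2)]
  unfold FE
  calc ∫⁻ x, fE p (CC n s x) * fE p x.2 ∂gg n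
      ≤ ∫⁻ x, (fE (2 * p) (CC n s x) + fE (2 * p) x.2) * 2⁻¹ ∂gg n := lintegral_mono hle
    _ = (∫⁻ x, fE (2 * p) (CC n s x) ∂gg n + ∫⁻ x : Mt n n × Mt n n, fE (2 * p) x.2 ∂gg n) * 2⁻¹ := by
        have hm5 : Measurable fun x : Mt n n × Mt n n => fE (2 * p) (CC n s x) :=
          hm.comp hC.measurable
        rw [lintegral_mul_const' _ _ (by simp), lintegral_add_left hm5]
    _ = (ENNReal.ofReal (NR n (2 * p)) + ENNReal.ofReal (NR n (2 * p))) * 2⁻¹ := by
        rw [hC.lintegral_comp hm, hS.lintegral_comp hm, moment n (2 * p) (by linarith)]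
    _ = ENNReal.ofReal (NR n (2 * p)) := by
        rw [← mul_two, mul_assoc, ENNReal.mul_inv_cancel two_ne_zero ENNReal.ofNat_ne_top, mul_one]

theorem FE_ne_top (n : ℕ) (p s : ℝ) (hp : 0 ≤ p) (h0 : 0 ≤ s) (h1 : s ≤ 1) : FE n p s ≠ ∞ :=
  ne_top_of_le_ne_top ENNReal.ofReal_ne_top (FE_le n p s hp h0 h1)

theorem Psi_eq (n : ℕ) (p s : ℝ) :
    Psi n s (p : ℂ) (p : ℂ) = (((FE n p s).toReal : ℝ) : ℂ) := by
  unfold Psi
  have h1 : ∀ x : Mt n n × Mt n n,
      fp (p : ℂ) (((√s : ℝ) : ℂ) • x.2 + ((√(1 - s) : ℝ) : ℂ) • x.1) * fp (p : ℂ) x.2 =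
      ((fr p (CC n s x) * fr p x.2 : ℝ) : ℂ) := by
    intro x
    rw [fp_eq_fr, fp_eq_fr]
    push_cast
    rfl
  simp_rw [h1]
  rw [integral_complex_ofReal]
  congr 1
  rw [integral_eq_lintegral_of_nonneg_ae]
  · unfold FE fE
    congr 1
    refine lintegral_congr fun x => ?_
    rw [← ENNReal.ofReal_mul (fr_pos _ _).le]
  · exact Eventually.of_forall fun x => mul_nonneg (fr_pos _ _).le (fr_pos _ _).le
  · have h2 : Measurable (CC n s) := measurable_lc' _ _
    exact (((measurable_fr n p).comp h2).mul ((measurable_fr n p).comp measurable_snd)).aestronglyMeasurable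

theorem pos_def (n : ℕ) (p : ℝ) (hp : 0 ≤ p) (N : ℕ) (b α : Fin N → ℝ)
    (hb : ∀ i, 0 ≤ b i ∧ b i < 1) :
    0 ≤ ∑ i, ∑ j, α i * α j * (FE n p (b i * b j)).toReal := by
  set g : Fin N → Mt n n → ℝ := fun i D => (gE p (b i) D).toReal with hg
  have hgm : ∀ i, Measurable (g i) := fun i => (measurable_gE n p (b i)).ennreal_toReal
  have hfin : ∀ i, ∀ᵐ D ∂gau n n, gE p (b i) D < ∞ := by
    intro i
    have h1 := key (n := n) p (b i) (b i) (hb i).1 (hb i).2 (hb i).1 (hb i).2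
    have h2 : ∫⁻ D : Mt n n, gE p (b i) D * gE p (b i) D ∂gau n n ≠ ∞ := by
      rw [h1]
      exact FE_ne_top n p _ hp (mul_nonneg (hb i).1 (hb i).1)
        (mul_le_one₀ (hb i).2.le (hb i).1 (hb i).2.le)
    filter_upwards [ae_lt_top ((measurable_gE n p (b i)).mul (measurable_gE n p (b i))) h2] with D hD
    by_contra hcon
    rw [not_lt, top_le_iff] at hcon
    simp only [Pi.mul_apply] at hD
    rw [hcon, ENNReal.top_mul_top] at hD
    exact lt_irrefl _ hD
  have hprod : ∀ i j, Integrable (fun D => g i D * g j D) (gau n n) ∧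
      ∫ D, g i D * g j D ∂gau n n = (FE n p (b i * b j)).toReal := by
    intro i j
    have h1 := key (n := n) p (b i) (b j) (hb i).1 (hb i).2 (hb j).1 (hb j).2
    have h2 : ∫⁻ D : Mt n n, gE p (b i) D * gE p (b j) D ∂gau n n ≠ ∞ := by
      rw [h1]
      exact FE_ne_top n p _ hp (mul_nonneg (hb i).1 (hb j).1)
        (mul_le_one₀ (hb i).2.le (hb j).1 (hb j).2.le)
    have h3 : ∀ D, g i D * g j D = (gE p (b i) D * gE p (b j) D).toReal := by
      intro D
      rw [hg, ENNReal.toReal_mul]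
    simp_rw [h3]
    constructor
    · exact integrable_toReal_of_lintegral_ne_top
        ((measurable_gE n p (b i)).mul (measurable_gE n p (b j))).aemeasurable h2
    · have hm6 : Measurable fun D : Mt n n => gE p (b i) D * gE p (b j) D :=
        (measurable_gE n p (b i)).mul (measurable_gE n p (b j))
      rw [integral_toReal hm6.aemeasurable (ae_lt_top hm6 h2), h1]
  have e1 : ∑ i, ∑ j, α i * α j * (FE n p (b i * b j)).toReal =
      ∫ D, (∑ i, α i * g i D) ^ 2 ∂gau n n := by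
    have h4 : ∀ D, (∑ i, α i * g i D) ^ 2 = ∑ i, ∑ j, α i * α j * (g i D * g j D) := by
      intro D
      rw [sq, Finset.sum_mul_sum]
      apply Finset.sum_congr rfl
      intro i _
      apply Finset.sum_congr rfl
      intro j _
      ring
    simp_rw [h4]
    rw [integral_finsetSum _ fun i _ => integrable_finsetSum _ fun j _ =>
      ((hprod i j).1).const_mul _]
    refine Finset.sum_congr rfl fun i _ => ?_
    rw [integral_finsetSum _ fun j _ => ((hprod i j).1).const_mul _]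
    refine Finset.sum_congr rfl fun j _ => ?_
    rw [integral_const_mul, (hprod i j).2]
  rw [e1]
  exact integral_nonneg fun D => sq_nonneg _

end

end Pool.Agent.K7.H98.GMC
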