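import Pool.Agent.R923.SE.Ser
import Pool.Agent.R923.SE.Mom
import Pool.Agent.R923.SE.MC
import Pool.Agent.R923.SE.Row
import Pool.Agent.R923.SE.ZD
import Pool.Agent.R923.SE.Lag
import Pool.Agent.R923.SE.Pos
import Pool.Agent.K7.H98.GMC.T2
import Pool.Agent.K7.H98.GMC.T3
import Pool.Agent.K7.H95.GMC.Defs

/-!
S_TWOPT (MP_55470d_pr): the Taylor coefficients of the two point function and the conclusion.
-/

set_option autoImplicit false

open MeasureTheory Complex Filter Topology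
open scoped ENNReal

namespace Pool.Agent.K7.H98.GMC

open Pool.Agent.R923.SE
open Pool.Agent.K7.H95.GMC

noncomputable section

theorem pN : S_N := s_N s_DEN s_UR
theorem pNUL : S_NUL := s_NUL s_UR
theorem pROW : S_ROW := s_ROW pN pNUL s_DEN
theorem pCOL : S_COL := s_COL pN pNUL s_DEN s_TR
theorem pPOL : S_POL := s_POL pN pNUL s_DEN
theorem pMC : S_MC := s_MC pCOL pPOL
theorem pZD : S_ZD := s_ZD s_UR pPOL
theorem pLAG : S_LAG := s_LAG pROW s_UL pPOL
theorem pMOM : S_MOM := s_MOM pZD pLAG pMC pPOL pROW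
theorem pSER : S_SER := s_SER pN pROW s_DEN pNUL s_ROT

/-- the function `F` -/
def FF (n : ℕ) (p r : ℝ) : ℝ := (FE n p r).toReal

/-- the exponent -/
def NE (n : ℕ) (p : ℝ) : ℝ := (n : ℝ) ^ 2 + 2 * n * p

/-- the coefficients of the exponential series -/
def Mk (n : ℕ) (p : ℝ) (k : ℕ) : ℝ := (mom n p p k).re / (k.factorial : ℝ) ^ 2

/-- the Taylor coefficients of `FF` -/
def cf (n : ℕ) (p : ℝ) (k : ℕ) : ℝ :=
  ∑ ij ∈ Finset.HasAntidiagonal.antidiagonal k, mc (-NE n p) ij.1 * Mk n p ij.2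

theorem hasSum_Mk (n : ℕ) (p : ℝ) (hp : 0 ≤ p) {r : ℝ} (h0 : 0 ≤ r) (h1 : r < 1) :
    HasSum (fun k => Mk n p k * r ^ k) (FF n p r * (1 - r) ^ (-NE n p)) := by
  have h := pSER n (p : ℂ) (p : ℂ) r (by simp; linarith) (by simp; linarith) h0 h1
  have h2 := Complex.reCLM.hasSum h
  have e1 : Complex.reCLM (Psi n r (p : ℂ) (p : ℂ) *
      ((1 - r : ℝ) : ℂ) ^ (-((n : ℂ) ^ 2 + n * ((p : ℂ) + (p : ℂ))))) =
      FF n p r * (1 - r) ^ (-NE n p) := by
    have e2 : (-((n : ℂ) ^ 2 + n * ((p : ℂ) + (p : ℂ)))) = (((-NE n p : ℝ)) : ℂ) := by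
      unfold NE
      push_cast
      ring
    rw [e2, ← Complex.ofReal_cpow (by linarith), Psi_eq, ← Complex.ofReal_mul,
      Complex.reCLM_apply, Complex.ofReal_re]
    rfl
  rw [e1] at h2
  refine h2.congr_fun ?_
  intro k
  simp only [Function.comp, Complex.reCLM_apply, Complex.re_ofReal_mul]
  unfold Mk
  ring

theorem hasSum_cf (n : ℕ) (p : ℝ) (hp : 0 ≤ p) {r : ℝ} (h0 : 0 ≤ r) (h1 : r < 1) :
    HasSum (fun k => cf n p k * r ^ k) (FF n p r) := by
  have ha := hasSum_mc (-NE n p) h0 h1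
  have hb := hasSum_Mk n p hp h0 h1
  have h := hasSum_cauchy ha hb
  rw [neg_neg] at h
  have e : (1 - r) ^ NE n p * (FF n p r * (1 - r) ^ (-NE n p)) = FF n p r := by
    rw [Real.rpow_neg (by linarith)]
    have : (1 - r) ^ NE n p ≠ 0 := (Real.rpow_pos_of_pos (by linarith) _).ne'
    field_simp
  rw [e] at h
  exact h

theorem NN_re (n : ℕ) (p : ℝ) : (NN n (p : ℂ)) = ((NR n p : ℝ) : ℂ) := hol_NN_real n p

theorem Mk_eq (n : ℕ) (p : ℝ) (hp : 0 ≤ p) (k : ℕ) (hk : k ≤ n) :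
    Mk n p k = NR n p ^ 2 * mc (((n : ℝ) + p) ^ 2) k := by
  unfold Mk
  rw [pMOM n (p : ℂ) (p : ℂ) k (by simp; linarith) (by simp; linarith) hk, NN_re, mc_eq]
  have h1 : (ascPochhammer ℂ k).eval (((n : ℂ) + p) * (n + p)) =
      (((ascPochhammer ℝ k).eval (((n : ℝ) + p) ^ 2) : ℝ) : ℂ) := by
    have h2 : (ascPochhammer ℂ k) = (ascPochhammer ℝ k).map (algebraMap ℝ ℂ) := by
      rw [ascPochhammer_map]
    have h3 : (((n : ℂ) + p) * (n + p)) = algebraMap ℝ ℂ (((n : ℝ) + p) ^ 2) := by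
      simp
      ring
    rw [h2, h3, Polynomial.eval_map_algebraMap, Polynomial.aeval_algebraMap_apply]
    simp
  rw [h1]
  have h4 : (((NR n p : ℝ) : ℂ) * ((NR n p : ℝ) : ℂ) * (k.factorial : ℂ) *
      (((ascPochhammer ℝ k).eval (((n : ℝ) + p) ^ 2) : ℝ) : ℂ)) =
      ((NR n p * NR n p * (k.factorial : ℝ) *
        ((ascPochhammer ℝ k).eval (((n : ℝ) + p) ^ 2)) : ℝ) : ℂ) := by
    push_cast
    rfl
  rw [h4, Complex.ofReal_re]
  have h5 : (k.factorial : ℝ) ≠ 0 := by exact_mod_cast k.factorial_ne_zero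
  field_simp

theorem cf_eq (n : ℕ) (p : ℝ) (hp : 0 ≤ p) (k : ℕ) (hk : k ≤ n) :
    cf n p k = NR n p ^ 2 * mc (p ^ 2) k := by
  unfold cf
  have h1 : ∑ ij ∈ Finset.HasAntidiagonal.antidiagonal k, mc (-NE n p) ij.1 * Mk n p ij.2 =
      NR n p ^ 2 * ∑ ij ∈ Finset.HasAntidiagonal.antidiagonal k,
        mc (-NE n p) ij.1 * mc (((n : ℝ) + p) ^ 2) ij.2 := by
    rw [Finset.mul_sum]
    apply Finset.sum_congr rfl
    intro ij hij
    rw [Finset.HasAntidiagonal.mem_antidiagonal] at hij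
    rw [Mk_eq n p hp ij.2 (by omega)]
    ring
  rw [h1, vandermonde]
  congr 2
  unfold NE
  ring

theorem cf_nonneg (n : ℕ) (p : ℝ) (hp : 0 ≤ p) (k : ℕ) : 0 ≤ cf n p k := by
  refine s_POS (FF n p) (cf n p) (fun r h0 h1 => hasSum_cf n p hp h0 h1) ?_ k
  intro N b α hb
  exact pos_def n p hp N b α hb

theorem sum_cf_le (n : ℕ) (p : ℝ) (hp : 0 ≤ p) (L : ℕ) :
    ∑ k ∈ Finset.range L, cf n p k ≤ NR n (2 * p) := by
  have ht : Tendsto (fun ρ : ℝ => ∑ k ∈ Finset.range L, cf n p k * ρ ^ k) (𝓝[<] 1)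
      (𝓝 (∑ k ∈ Finset.range L, cf n p k)) := by
    have h5 : Continuous (fun ρ : ℝ => ∑ k ∈ Finset.range L, cf n p k * ρ ^ k) := by fun_prop
    have h6 := (h5.tendsto 1).mono_left (nhdsWithin_le_nhds (s := Set.Iio 1))
    simpa using h6
  refine le_of_tendsto ht ?_
  have h5 : ∀ᶠ ρ : ℝ in 𝓝[<] 1, ρ ∈ Set.Ioo (0 : ℝ) 1 := Ioo_mem_nhdsLT one_pos
  filter_upwards [h5] with ρ hρ
  have h6 := sum_le_hasSum (Finset.range L)
    (fun k _ => mul_nonneg (cf_nonneg n p hp k) (pow_nonneg hρ.1.le k))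
    (hasSum_cf n p hp hρ.1.le hρ.2)
  refine h6.trans ?_
  unfold FF
  have h7 := FE_le n p ρ hp hρ.1.le hρ.2.le
  have h8 := NR_pos n (a := 2 * p) (by linarith)
  exact ENNReal.toReal_le_of_le_ofReal h8.le h7

/-- normalised coefficients -/
def df (n : ℕ) (p : ℝ) (k : ℕ) : ℝ := cf n p k / NR n p ^ 2

theorem df_nonneg (n : ℕ) (p : ℝ) (hp : 0 ≤ p) (k : ℕ) : 0 ≤ df n p k :=
  div_nonneg (cf_nonneg n p hp k) (sq_nonneg _)

theorem df_eq (n : ℕ) (p : ℝ) (hp : 0 ≤ p) (k : ℕ) (hk : k ≤ n) : df n p k = mc (p ^ 2) k := by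
  unfold df
  have := NR_pos n (a := p) (by linarith)
  rw [cf_eq n p hp k hk]
  field_simp

theorem sum_df_le (n : ℕ) (p : ℝ) (hp : 0 ≤ p) (L : ℕ) :
    ∑ k ∈ Finset.range L, df n p k ≤ NR n (2 * p) / NR n p ^ 2 := by
  unfold df
  rw [← Finset.sum_div]
  exact div_le_div_of_nonneg_right (sum_cf_le n p hp L) (sq_nonneg _)

theorem hasSum_df (n : ℕ) (p : ℝ) (hp : 0 ≤ p) {r : ℝ} (h0 : 0 ≤ r) (h1 : r < 1) :
    HasSum (fun k => df n p k * r ^ k) (W2 n p r) := by
  have h := (hasSum_cf n p hp h0 h1).div_const (NR n p ^ 2)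
  have e : FF n p r / NR n p ^ 2 = W2 n p r := by
    unfold W2
    rw [Psi_eq, NN_re, Complex.ofReal_re, Complex.ofReal_re]
    rfl
  rw [e] at h
  refine h.congr_fun ?_
  intro k
  unfold df
  ring

/-- pointwise bound of the difference -/
theorem diff_le (n : ℕ) (p : ℝ) (hp : 0 ≤ p) {s : ℝ} (h0 : 0 ≤ s) (h1 : s < 1) :
    ENNReal.ofReal |W2 n p s - (1 - s) ^ (-(p ^ 2))| ≤
      ∑' k : ℕ, ENNReal.ofReal (df n p (k + (n + 1)) + mc (p ^ 2) (k + (n + 1))) *
        ENNReal.ofReal (s ^ (k + (n + 1))) := by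
  have ha := hasSum_df n p hp h0 h1
  have hb := hasSum_mc (p ^ 2) h0 h1
  have hd := ha.sub hb
  have hsum := ha.add hb
  have hd' := (hasSum_nat_add_iff' (n + 1)).2 hd
  have hz : ∑ k ∈ Finset.range (n + 1), (df n p k * s ^ k - mc (p ^ 2) k * s ^ k) = 0 := by
    apply Finset.sum_eq_zero
    intro k hk
    rw [Finset.mem_range] at hk
    rw [df_eq n p hp k (by omega), sub_self]
  rw [hz, sub_zero] at hd'
  have hsum' := (summable_nat_add_iff (n + 1)).2 hsum.summable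
  have hb1 : ∀ k, ‖df n p (k + (n + 1)) * s ^ (k + (n + 1)) -
      mc (p ^ 2) (k + (n + 1)) * s ^ (k + (n + 1))‖ ≤
      df n p (k + (n + 1)) * s ^ (k + (n + 1)) + mc (p ^ 2) (k + (n + 1)) * s ^ (k + (n + 1)) := by
    intro k
    have h3 := mul_nonneg (df_nonneg n p hp (k + (n + 1))) (pow_nonneg h0 (k + (n + 1)))
    have h4 := mul_nonneg (mc_nonneg (sq_nonneg p) (k + (n + 1))) (pow_nonneg h0 (k + (n + 1)))
    rw [Real.norm_eq_abs, abs_le]
    constructor <;> linarith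
  have h5 := tsum_of_norm_bounded hsum'.hasSum hb1
  rw [hd'.tsum_eq, Real.norm_eq_abs] at h5
  refine (ENNReal.ofReal_le_ofReal h5).trans ?_
  rw [ENNReal.ofReal_tsum_of_nonneg (fun k => by
    have h3 := mul_nonneg (df_nonneg n p hp (k + (n + 1))) (pow_nonneg h0 (k + (n + 1)))
    have h4 := mul_nonneg (mc_nonneg (sq_nonneg p) (k + (n + 1))) (pow_nonneg h0 (k + (n + 1)))
    linarith) hsum']
  apply ENNReal.tsum_le_tsum
  intro k
  rw [← ENNReal.ofReal_mul (add_nonneg (df_nonneg n p hp _) (mc_nonneg (sq_nonneg p) _)), add_mul]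

theorem lintegral_pow (m : ℕ) :
    ∫⁻ s in Set.Icc (0 : ℝ) 1, ENNReal.ofReal (s ^ m) = ENNReal.ofReal (1 / ((m : ℝ) + 1)) := by
  rw [← ofReal_integral_eq_lintegral_ofReal]
  · rw [integral_Icc_eq_integral_Ioc, ← intervalIntegral.integral_of_le zero_le_one]
    congr 1
    simp
  · exact (Continuous.integrableOn_Icc (by fun_prop))
  · rw [EventuallyLE, ae_restrict_iff' measurableSet_Icc]
    exact Eventually.of_forall fun s hs => pow_nonneg hs.1 m

theorem ae_lt_one : ∀ᵐ s ∂(volume.restrict (Set.Icc (0 : ℝ) 1)), 0 ≤ s ∧ s < 1 := by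
  rw [← restrict_Ico_eq_restrict_Icc, ae_restrict_iff' measurableSet_Ico]
  exact Eventually.of_forall fun s hs => ⟨hs.1, hs.2⟩

theorem mc_sum_ne_top (x : ℝ) (hx0 : 0 ≤ x) (hx : x < 1) :
    ∑' k : ℕ, ENNReal.ofReal (mc x k) * ENNReal.ofReal (1 / ((k : ℝ) + 1)) ≠ ∞ := by
  have h1 : ∑' k : ℕ, ENNReal.ofReal (mc x k) * ENNReal.ofReal (1 / ((k : ℝ) + 1)) =
      ∫⁻ s in Set.Icc (0 : ℝ) 1, ENNReal.ofReal ((1 - s) ^ (-x)) := by
    have h2 : ∀ k : ℕ, ENNReal.ofReal (mc x k) * ENNReal.ofReal (1 / ((k : ℝ) + 1)) =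
        ∫⁻ s in Set.Icc (0 : ℝ) 1, ENNReal.ofReal (mc x k) * ENNReal.ofReal (s ^ k) := by
      intro k
      rw [lintegral_const_mul _ (by fun_prop), lintegral_pow]
    simp_rw [h2]
    rw [← lintegral_tsum (fun k => by fun_prop)]
    apply lintegral_congr_ae
    filter_upwards [ae_lt_one] with s hs
    have h3 := hasSum_mc x hs.1 hs.2
    rw [← h3.tsum_eq, ENNReal.ofReal_tsum_of_nonneg
      (fun k => mul_nonneg (mc_nonneg hx0 k) (pow_nonneg hs.1 k)) h3.summable]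
    apply tsum_congr
    intro k
    rw [ENNReal.ofReal_mul (mc_nonneg hx0 k)]
  rw [h1]
  have h4 : IntervalIntegrable (fun s : ℝ => (1 - s) ^ (-x)) volume 0 1 := by
    have h5 := (intervalIntegral.intervalIntegrable_rpow' (a := 0) (b := 1) (r := -x)
      (by linarith)).comp_sub_left 1
    simp only [sub_zero, sub_self] at h5
    exact h5.symm
  rw [intervalIntegrable_iff_integrableOn_Ioc_of_le zero_le_one] at h4
  have h6 : IntegrableOn (fun s : ℝ => (1 - s) ^ (-x)) (Set.Icc 0 1) := by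
    rwa [integrableOn_Icc_iff_integrableOn_Ioc]
  exact h6.lintegral_lt_top.ne

theorem s_TWOPT : S_TWOPT := by
  intro p hp0 hp1
  have hp : 0 ≤ p := hp0.le
  have hp2 : p ^ 2 < 1 := by nlinarith
  have hT := ENNReal.tendsto_sum_nat_add _ (mc_sum_ne_top (p ^ 2) (sq_nonneg p) hp2)
  have hT' := hT.comp (tendsto_add_atTop_nat 1)
  have hR : Tendsto (fun n : ℕ => ENNReal.ofReal (NR n (2 * p) / NR n p ^ 2 *
      (1 / ((n : ℝ) + 2)))) atTop (𝓝 0) := by
    have := ENNReal.tendsto_ofReal (NR_ratio_tendsto hp hp1)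
    rwa [ENNReal.ofReal_zero] at this
  have hlim := hR.add hT'
  rw [add_zero] at hlim
  refine tendsto_of_tendsto_of_tendsto_of_le_of_le tendsto_const_nhds hlim
    (fun n => zero_le) (fun n => ?_)
  simp only [Function.comp]
  calc ∫⁻ s in Set.Icc (0 : ℝ) 1, ENNReal.ofReal |W2 n p s - (1 - s) ^ (-(p ^ 2))|
      ≤ ∫⁻ s in Set.Icc (0 : ℝ) 1, ∑' k : ℕ,
        ENNReal.ofReal (df n p (k + (n + 1)) + mc (p ^ 2) (k + (n + 1))) *
        ENNReal.ofReal (s ^ (k + (n + 1))) := by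
        apply lintegral_mono_ae
        filter_upwards [ae_lt_one] with s hs
        exact diff_le n p hp hs.1 hs.2
    _ = ∑' k : ℕ, ENNReal.ofReal (df n p (k + (n + 1)) + mc (p ^ 2) (k + (n + 1))) *
        ENNReal.ofReal (1 / (((k + (n + 1) : ℕ) : ℝ) + 1)) := by
        rw [lintegral_tsum (fun k => by fun_prop)]
        apply tsum_congr
        intro k
        rw [lintegral_const_mul _ (by fun_prop), lintegral_pow]
    _ = ∑' k : ℕ, (ENNReal.ofReal (df n p (k + (n + 1))) *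
        ENNReal.ofReal (1 / (((k + (n + 1) : ℕ) : ℝ) + 1)) +
        ENNReal.ofReal (mc (p ^ 2) (k + (n + 1))) *
        ENNReal.ofReal (1 / (((k + (n + 1) : ℕ) : ℝ) + 1))) := by
        apply tsum_congr
        intro k
        rw [ENNReal.ofReal_add (df_nonneg n p hp _) (mc_nonneg (sq_nonneg p) _), add_mul]
    _ = (∑' k : ℕ, ENNReal.ofReal (df n p (k + (n + 1))) *
        ENNReal.ofReal (1 / (((k + (n + 1) : ℕ) : ℝ) + 1))) +
        ∑' k : ℕ, ENNReal.ofReal (mc (p ^ 2) (k + (n + 1))) *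
        ENNReal.ofReal (1 / (((k + (n + 1) : ℕ) : ℝ) + 1)) := ENNReal.tsum_add
    _ ≤ _ := by
        apply add_le_add _ le_rfl
        calc ∑' k : ℕ, ENNReal.ofReal (df n p (k + (n + 1))) *
            ENNReal.ofReal (1 / (((k + (n + 1) : ℕ) : ℝ) + 1))
            ≤ ∑' k : ℕ, ENNReal.ofReal (df n p (k + (n + 1))) *
              ENNReal.ofReal (1 / ((n : ℝ) + 2)) := by
              apply ENNReal.tsum_le_tsum
              intro k
              apply mul_le_mul' le_rfl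
              apply ENNReal.ofReal_le_ofReal
              apply one_div_le_one_div_of_le (by positivity)
              push_cast
              have : (0 : ℝ) ≤ k := Nat.cast_nonneg k
              linarith
          _ = (∑' k : ℕ, ENNReal.ofReal (df n p (k + (n + 1)))) *
              ENNReal.ofReal (1 / ((n : ℝ) + 2)) := ENNReal.tsum_mul_right
          _ ≤ ENNReal.ofReal (NR n (2 * p) / NR n p ^ 2) *
              ENNReal.ofReal (1 / ((n : ℝ) + 2)) := by
              apply mul_le_mul' _ le_rfl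
              apply ENNReal.tsum_le_of_sum_range_le
              intro L
              rw [← ENNReal.ofReal_sum_of_nonneg (fun k _ => df_nonneg n p hp _)]
              apply ENNReal.ofReal_le_ofReal
              refine le_trans ?_ (sum_df_le n p hp (n + 1 + L))
              rw [Finset.sum_range_add]
              have h1 : 0 ≤ ∑ k ∈ Finset.range (n + 1), df n p k :=
                Finset.sum_nonneg fun k _ => df_nonneg n p hp k
              have h2 : ∑ k ∈ Finset.range L, df n p (k + (n + 1)) =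
                  ∑ k ∈ Finset.range L, df n p (n + 1 + k) :=
                Finset.sum_congr rfl fun k _ => by rw [add_comm]
              rw [h2]
              linarith
          _ = ENNReal.ofReal (NR n (2 * p) / NR n p ^ 2 * (1 / ((n : ℝ) + 2))) := by
              have := NR_pos n (a := 2 * p) (by linarith)
              rw [← ENNReal.ofReal_mul (by positivity)]

end

end Pool.Agent.K7.H98.GMC
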