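import Pool.Agent.K7.H95.GMC.Defs3
import Pool.Agent.K7.H98.GMC.GS
import Pool.Agent.K7.H98.GMC.T4

/-!
`S_GS2` and `S_TOP` (MP_55470d_pr).
-/

set_option autoImplicit false

open MeasureTheory Complex Filter Topology
open scoped ENNReal NNReal ComplexConjugate

namespace Pool.Agent.K7.H98.GMC

open Pool.Agent.R923.SE Pool.Agent.R923.SE.NX
open Pool.Agent.K7.H95.GMC

noncomputable section

theorem s_GS2 : S_GS2 := by
  intro n a b w
  set c : ℕ → V n := fun m => if h : m < n then cx a b (w ⟨m, h⟩) else 0 with hc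
  have h1 : ∀ i : Fin n, cx a b (w i) = c i := by
    intro i
    simp [hc]
  rw [GSch.DM_eq a b c n w h1, ← Fin.prod_univ_eq_prod_range, ← GSch.gram c]
  unfold dt
  congr 3
  ext i j
  simp only [Matrix.of_apply, ← h1 i, cx, Pi.add_apply, Pi.smul_apply, smul_eq_mul]

theorem ZM_top (n : ℕ) (p : ℝ) : ZM n p n = (NN n p).re := by
  rw [NN_re, Complex.ofReal_re]
  unfold ZM NR
  rw [← Finset.prod_range_reflect]
  refine Finset.prod_congr rfl fun j hj => ?_
  rw [Finset.mem_range] at hj
  have e : n - (n - 1 - j) = j + 1 := by omega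
  rw [e]
  push_cast
  rfl

theorem ZM_pos {n m : ℕ} (hm : m ≤ n) {p : ℝ} (hp : 0 < p) : 0 < ZM n p m := by
  unfold ZM
  refine Finset.prod_pos fun j hj => ?_
  rw [Finset.mem_range] at hj
  have h1 : (0 : ℝ) < ((n - j : ℕ) : ℝ) := by exact_mod_cast (by omega : 0 < n - j)
  exact div_pos (Real.Gamma_pos_of_pos (by linarith)) (Real.Gamma_pos_of_pos h1)

theorem s_TOP : S_TOP := by
  intro n
  constructor
  · exact measurePreserving_arrowProdEquivProdArrow (V n) (V n) (Fin n)
      (fun _ => rw n) (fun _ => rw n)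
  · intro p hp f w
    unfold XM XN NM Nh
    refine integral_congr_ae (Eventually.of_forall fun u => ?_)
    simp only
    rw [s_GS2, ZM_top, ← Real.rpow_natCast, ← Real.rpow_mul (norm_nonneg _)]
    norm_num

end

end Pool.Agent.K7.H98.GMC
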