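import Pool.Agent.K7.H98.GMC.Top
import Pool.Agent.K7.H98.GMC.Arch
import Pool.Agent.K7.H89.GMC.GEO

/-!
The two point function of the normalised powers of the determinants, `S_L2` (MP_55470d_pr).
-/

set_option autoImplicit false

open MeasureTheory Complex Filter Topology
open scoped ENNReal NNReal ComplexConjugate

namespace Pool.Agent.K7.H98.GMC

open Pool.Agent.R923.SE Pool.Agent.R923.SE.NX
open Pool.Agent.K7.H95.GMC

noncomputable section

theorem pGEO : S_GEO := Pool.Agent.K7.H89.GMC.s_GEO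

theorem measurable_sa : Measurable sa := pGEO.1
theorem measurable_sb : Measurable sb := pGEO.2.1
theorem sa_sb (u : S2) : ‖sa u‖ ^ 2 + ‖sb u‖ ^ 2 = 1 := pGEO.2.2.1 u
theorem sg_eq (u v : S2) : ‖sg (sa u) (sb u) (sa v) (sb v)‖ ^ 2 =
    1 - ‖(u : R3) - (v : R3)‖ ^ 2 / 4 := pGEO.2.2.2.1 u v

theorem NR_pos' (n : ℕ) {p : ℝ} (hp : 0 < p) : 0 < NR n p := NR_pos n (by linarith)

/-- normalised power of the determinant, `ENNReal` version -/
def gg1 {n : ℕ} (p : ℝ) (X : Mt n n) : ℝ≥0∞ := ENNReal.ofReal (‖dt X‖ ^ (2 * p) / NR n p)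

theorem measurable_dt (n : ℕ) : Measurable (dt : Mt n n → ℂ) := by
  have : Continuous (dt : Mt n n → ℂ) := by
    unfold dt
    exact Continuous.matrix_det (by fun_prop)
  exact this.measurable

theorem measurable_gg1 (n : ℕ) (p : ℝ) : Measurable (gg1 p : Mt n n → ℝ≥0∞) := by
  unfold gg1
  have := measurable_dt n
  fun_prop

theorem Nh_eq (n : ℕ) (p : ℝ) (u : S2) (x : Mt n n × Mt n n) :
    ENNReal.ofReal (Nh n p u x) = gg1 p (sa u • x.1 + sb u • x.2) := by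
  unfold Nh gg1
  rw [NN_re, Complex.ofReal_re]

theorem Nh_nonneg (n : ℕ) {p : ℝ} (hp : 0 < p) (u : S2) (x : Mt n n × Mt n n) :
    0 ≤ Nh n p u x := by
  unfold Nh
  rw [NN_re, Complex.ofReal_re]
  have := NR_pos' n hp
  positivity

theorem measurable_Nh (n : ℕ) (p : ℝ) :
    Measurable fun z : S2 × (Mt n n × Mt n n) => Nh n p z.1 z.2 := by
  have h1 : Measurable fun z : S2 × (Mt n n × Mt n n) => (sa z.1 • z.2.1 + sb z.1 • z.2.2) := by
    refine measurable_pi_lambda _ fun i => measurable_pi_lambda _ fun j => ?_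
    simp only [Pi.add_apply, Pi.smul_apply, smul_eq_mul]
    have := measurable_sa
    have := measurable_sb
    fun_prop
  have h2 := (measurable_dt n).comp h1
  unfold Nh
  have h3 : Measurable fun z : S2 × (Mt n n × Mt n n) =>
      ‖(dt ∘ fun z : S2 × (Mt n n × Mt n n) => (sa z.1 • z.2.1 + sb z.1 • z.2.2)) z‖ ^ (2 * p) :=
    h2.norm.pow_const _
  exact h3.div_const _

theorem exists_phase (z : ℂ) : ∃ ζ : ℂ, ‖ζ‖ = 1 ∧ z = ((‖z‖ : ℝ) : ℂ) * ζ := by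
  by_cases h : z = 0
  · exact ⟨1, by simp, by simp [h]⟩
  · have h' : (‖z‖ : ℝ) ≠ 0 := norm_ne_zero_iff.2 h
    refine ⟨z / ((‖z‖ : ℝ) : ℂ), ?_, ?_⟩
    · rw [norm_div, Complex.norm_real, norm_norm, div_self h']
    · have : ((‖z‖ : ℝ) : ℂ) ≠ 0 := by exact_mod_cast h'
      field_simp

theorem dt_smul {n : ℕ} (c : ℂ) (X : Mt n n) : dt (c • X) = c ^ n * dt X := by
  unfold dt
  have : (Matrix.of (c • X) : Matrix (Fin n) (Fin n) ℂ) = c • Matrix.of X := rfl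
  rw [this, Matrix.det_smul, Fintype.card_fin]

theorem gg1_phase {n : ℕ} (p : ℝ) {ζ : ℂ} (hζ : ‖ζ‖ = 1) (X : Mt n n) :
    gg1 p (ζ • X) = gg1 p X := by
  unfold gg1
  rw [dt_smul, norm_mul, norm_pow, hζ, one_pow, one_mul]

theorem gg1_ae {n : ℕ} (p : ℝ) : ∀ᵐ X ∂gau n n,
    gg1 p X = fE p X * ENNReal.ofReal (NR n p)⁻¹ := by
  filter_upwards [pNUL n] with X hX
  unfold gg1 fE fr
  have h : 0 < ‖dt X‖ := norm_pos_iff.2 hX
  rw [← ENNReal.ofReal_mul (Real.exp_pos _).le, Real.rpow_def_of_pos h, div_eq_mul_inv]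
  ring_nf

/-- two point function -/
theorem two_point (n : ℕ) (p : ℝ) (hp : 0 < p) {a b a' b' : ℂ} (hab : ‖a‖ ^ 2 + ‖b‖ ^ 2 = 1)
    (hab' : ‖a'‖ ^ 2 + ‖b'‖ ^ 2 = 1) :
    ∫⁻ x : Mt n n × Mt n n, gg1 p (a • x.1 + b • x.2) * gg1 p (a' • x.1 + b' • x.2) ∂gg n =
      FE n p (‖sg a b a' b'‖ ^ 2) * ENNReal.ofReal (NR n p)⁻¹ ^ 2 := by
  set σ := sg a b a' b' with hσ
  set τ := tu a b a' b' with hτ
  have hst : ‖σ‖ ^ 2 + ‖τ‖ ^ 2 = 1 := sg_tu hab hab'
  have mg := measurable_gg1 n p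
  -- rotation
  have hT := s_ROT n n a b (-conj b) (conj a) hab
    (by rw [norm_neg, RCLike.norm_conj, RCLike.norm_conj, add_comm]; exact hab)
    (by simp only [map_neg, Complex.conj_conj]; ring)
  have hF1 : Measurable fun x : Mt n n × Mt n n => gg1 p x.1 * gg1 p (σ • x.1 + τ • x.2) := by
    refine (mg.comp measurable_fst).mul (mg.comp ?_)
    have : Continuous fun x : Mt n n × Mt n n => (σ • x.1 + τ • x.2) := by fun_prop
    exact this.measurable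
  have e1 : ∫⁻ x : Mt n n × Mt n n, gg1 p (a • x.1 + b • x.2) * gg1 p (a' • x.1 + b' • x.2) ∂gg n =
      ∫⁻ x : Mt n n × Mt n n, gg1 p x.1 * gg1 p (σ • x.1 + τ • x.2) ∂gg n := by
    unfold gg
    rw [← hT.lintegral_comp hF1]
    refine lintegral_congr fun x => ?_
    simp only
    congr 2
    have h : conj a * a + conj b * b = 1 := by
      rw [Complex.conj_mul', Complex.conj_mul']; exact_mod_cast hab
    funext i j
    simp only [Pi.add_apply, Pi.smul_apply, smul_eq_mul, hσ, hτ]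
    unfold sg tu
    linear_combination (-(a' * x.1 i j + b' * x.2 i j)) * h
  -- phases
  obtain ⟨ζ1, hζ1, hσ1⟩ := exists_phase σ
  obtain ⟨ζ2, hζ2, hτ2⟩ := exists_phase τ
  set s : ℝ := ‖σ‖ ^ 2 with hs
  have hs0 : 0 ≤ s := by positivity
  have hs1 : s ≤ 1 := by rw [hs]; nlinarith [sq_nonneg ‖τ‖]
  have hn1 : ‖σ‖ = √s := by rw [hs, Real.sqrt_sq (norm_nonneg _)]
  have hn2 : ‖τ‖ = √(1 - s) := by
    rw [show 1 - s = ‖τ‖ ^ 2 by linarith, Real.sqrt_sq (norm_nonneg _)]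
  have hζ1' : ζ1 ≠ 0 := by
    intro h; rw [h, norm_zero] at hζ1; exact zero_ne_one hζ1
  set ζ := ζ1⁻¹ * ζ2 with hζ
  have hζn : ‖ζ‖ = 1 := by rw [hζ, norm_mul, norm_inv, hζ1, hζ2]; simp
  have e2 : ∀ x : Mt n n × Mt n n, gg1 p (σ • x.1 + τ • x.2) =
      gg1 p (lc (√s) (√(1 - s)) x.1 (ζ • x.2)) := by
    intro x
    rw [← gg1_phase p hζ1 (lc (√s) (√(1 - s)) x.1 (ζ • x.2))]
    congr 1
    funext i j
    simp only [lc, Pi.add_apply, Pi.smul_apply, smul_eq_mul]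
    rw [hσ1, hτ2, hn1, hn2, hζ]
    field_simp
  have hT2 := s_ROT n n 1 0 0 ζ (by simp) (by simp [hζn]) (by simp)
  have hF2 : Measurable fun x : Mt n n × Mt n n =>
      gg1 p x.1 * gg1 p (lc (√s) (√(1 - s)) x.1 x.2) :=
    (mg.comp measurable_fst).mul (mg.comp (measurable_lc _ _))
  have e3 : ∫⁻ x : Mt n n × Mt n n, gg1 p x.1 * gg1 p (σ • x.1 + τ • x.2) ∂gg n =
      ∫⁻ x : Mt n n × Mt n n, gg1 p x.1 * gg1 p (lc (√s) (√(1 - s)) x.1 x.2) ∂gg n := by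
    unfold gg
    rw [← hT2.lintegral_comp hF2]
    refine lintegral_congr fun x => ?_
    simp only [e2 x, one_smul, zero_smul, add_zero, zero_add]
  -- swap
  have e4 : ∫⁻ x : Mt n n × Mt n n, gg1 p x.1 * gg1 p (lc (√s) (√(1 - s)) x.1 x.2) ∂gg n =
      ∫⁻ x : Mt n n × Mt n n, gg1 p (CC n s x) * gg1 p x.2 ∂gg n := by
    unfold gg
    rw [← (Measure.measurePreserving_swap (μ := gau n n) (ν := gau n n)).lintegral_comp hF2]
    refine lintegral_congr fun x => ?_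
    simp only [Prod.fst_swap, Prod.snd_swap]
    rw [mul_comm]
    rfl
  rw [e1, e3, e4]
  have hC := hol_mp s_ROT n s hs0 hs1
  have hS : MeasurePreserving (Prod.snd : Mt n n × Mt n n → Mt n n) (gg n) (gau n n) := by
    unfold gg
    exact measurePreserving_snd
  have a1 : ∀ᵐ x ∂gg n, gg1 p (CC n s x) = fE p (CC n s x) * ENNReal.ofReal (NR n p)⁻¹ :=
    hC.quasiMeasurePreserving.ae (gg1_ae p)
  have a2 : ∀ᵐ x ∂gg n, gg1 p x.2 = fE p x.2 * ENNReal.ofReal (NR n p)⁻¹ :=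
    hS.quasiMeasurePreserving.ae (gg1_ae p)
  unfold FE
  rw [← lintegral_mul_const _ (by
    exact ((measurable_fE n p).comp hC.measurable).mul ((measurable_fE n p).comp measurable_snd))]
  refine lintegral_congr_ae ?_
  filter_upwards [a1, a2] with x h1 h2
  rw [h1, h2]
  ring

theorem W2_eq (n : ℕ) (p s : ℝ) : W2 n p s = (FE n p s).toReal / NR n p ^ 2 := by
  unfold W2
  rw [Psi_eq, NN_re, Complex.ofReal_re, Complex.ofReal_re]

theorem W2_nonneg (n : ℕ) (p s : ℝ) : 0 ≤ W2 n p s := by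
  rw [W2_eq]
  positivity

theorem two_W2 (n : ℕ) (p : ℝ) (hp : 0 < p) {a b a' b' : ℂ} (hab : ‖a‖ ^ 2 + ‖b‖ ^ 2 = 1)
    (hab' : ‖a'‖ ^ 2 + ‖b'‖ ^ 2 = 1) :
    ∫⁻ x : Mt n n × Mt n n, gg1 p (a • x.1 + b • x.2) * gg1 p (a' • x.1 + b' • x.2) ∂gg n =
      ENNReal.ofReal (W2 n p (‖sg a b a' b'‖ ^ 2)) := by
  rw [two_point n p hp hab hab', W2_eq, ENNReal.ofReal_div_of_pos (by
    have := NR_pos' n hp; positivity), ENNReal.ofReal_toReal]
  · rw [ENNReal.ofReal_inv_of_pos (NR_pos' n hp), ENNReal.ofReal_pow (NR_pos' n hp).le,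
      div_eq_mul_inv, ENNReal.inv_pow]
  · have := sg_tu hab hab'
    exact FE_ne_top n p _ hp.le (by positivity) (by nlinarith [sq_nonneg ‖tu a b a' b'‖])

end

end Pool.Agent.K7.H98.GMC
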